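import Pool.Agent.Lib.MP_8f49b0_lc.MM.I.KlCor

/-! # Consequences of the K-lemma, continued (module I-KLCOR2), (3.9) of the paper

`inc_PB`: `kl` for the set of the `(c, β)` such that `c ≤ a0` and `c ≤ z` for some `(z, β) ∈ Z`; `exists_node`; apply the hypothesis to `c'` and `γ = δ`, where `N ∩ ω₁ = δ` (`Nice.exists_delta`).
`bdd_PB`: `refl_PB` for `X = ℕ`, `Y = O`; `γ = δ`. -/

namespace Pool.Agent.Lib.MP_8f49b0_lc.MM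

namespace Code

variable (K : Code)

theorem inc_PB (b : Option O) (hb : ∀ α, b = some α → K.Tr α) (ι : Type) [Finite ι] (Z : Set (Pre × (ι → O)))
    (hZ : ∀ z ∈ Z, z.1 ∈ PB K b) (a0 : Pre) (ha0 : a0 ∈ PB K b)
    (h : ∀ a ∈ PB K b, K.le a a0 → ∀ γ < w1, ∃ z ∈ Z, (∀ i, γ < z.2 i ∧ z.2 i < w1) ∧
      ∃ a' ∈ PB K b, K.le a' a ∧ K.le a' z.1) :
    ∃ z1 ∈ Z, ∃ z2 ∈ Z, ∃ a' ∈ PB K b, K.le a' a0 ∧ K.le a' z1.1 ∧ K.le a' z2.1 ∧ Lt a'.u z1.2 z2.2 := by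
  obtain ⟨F, hF, hFN⟩ := kl K b hb (X := Unit) (Y := Unit) ι
    (fun _ => {z | ∃ z0 ∈ Z, z0.2 = z.2.1 ∧ K.le z.1 a0 ∧ K.le z.1 z0.1}) (fun p z hz => ⟨∅, trivial⟩)
  obtain ⟨N, hN, hCl, -, -, c', hc', hc'a, hNc⟩ := exists_node K b hb F hF ha0 ∅ Set.countable_empty
  obtain ⟨δ, hδ, hδN⟩ := hN.exists_delta
  obtain ⟨z, hz, hzδ, a'', ha'', h1, h2⟩ := h c' hc' hc'a δ hδ
  have h3 : K.le a'' a0 := le_trans_of_ok ha''.1 hc'.1 ha0.1 h1 hc'a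
  obtain ⟨z', ⟨z0, hz0, h4, h5, h6⟩, -, h7, -, c'', hc'', h8, h9, h10⟩ := hFN N hN hCl () trivial (a'', z.2, ())
    ⟨z, hz, rfl, h3, h2⟩ ha'' (h1.C hNc)
    (fun i => ⟨fun hi => lt_asymm ((hδN _ (hzδ i).2).1 hi) (hzδ i).1, (hzδ i).2⟩)
  refine ⟨z0, hz0, z, hz, c'', hc'', le_trans_of_ok hc''.1 ha''.1 ha0.1 h8 h3,
    le_trans_of_ok hc''.1 h7.1 (hZ z0 hz0).1 h9 h6, le_trans_of_ok hc''.1 ha''.1 (hZ z hz).1 h8 h2, ?_⟩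
  rw [h4]
  exact h10

/-- `ω₁` is preserved -/
theorem bdd_PB (b : Option O) (hb : ∀ α, b = some α → K.Tr α) (E : ℕ → Set (Pre × O))
    (hE : ∀ n, ∀ e ∈ E n, e.2 < w1) (a0 : Pre) (ha0 : a0 ∈ PB K b) :
    ∃ a1 ∈ PB K b, K.le a1 a0 ∧ ∃ γ < w1, ∀ n, ∀ a ∈ PB K b, K.le a a1 → (∃ e ∈ E n, K.Ok e.1 ∧ K.le a e.1) →
      ∃ e ∈ E n, e.2 < γ ∧ ∃ a' ∈ PB K b, K.le a' a ∧ K.le a' e.1 := by
  obtain ⟨F, hF, hFN⟩ := refl_PB K b hb (X := ℕ) (Y := O)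
    (fun n => {z | ∃ e ∈ E n, K.Ok e.1 ∧ K.le z.1 e.1 ∧ e.2 = z.2})
    (fun p e _ => ⟨{e.2}, Set.mem_singleton _⟩)
  obtain ⟨N, hN, hCl, -, -, a1, ha1, ha1a, hNa⟩ := exists_node K b hb F hF ha0 ∅ Set.countable_empty
  obtain ⟨δ, hδ, hδN⟩ := hN.exists_delta
  refine ⟨a1, ha1, ha1a, δ, hδ, fun n a ha haa1 hex => ?_⟩
  obtain ⟨e, he, heok, hle⟩ := hex
  obtain ⟨e', ⟨e0, he0, h1, h2, h3⟩, h4, h5, c'', hc'', h6, h7⟩ := hFN N hN hCl n trivial (a, e.2)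
    ⟨e, he, heok, hle, rfl⟩ ha (haa1.C hNa)
  refine ⟨e0, he0, ?_, c'', hc'', h6, le_trans_of_ok hc''.1 h5.1 h1 h7 h2⟩
  have h8 : e'.2 ∈ N := h4.2
  rw [← h3] at h8
  exact (hδN _ (hE n e0 he0)).1 h8

end Code

end Pool.Agent.Lib.MP_8f49b0_lc.MM
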