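import Pool.Agent.Lib.MP_8f49b0_lc.MM.S.Defs

/-!
# MP_8f49b0_lc: the forcing notion (part I, definitions)
-/

namespace Pool.Agent.Lib.MP_8f49b0_lc.MM

namespace Code

variable (K : Code)

/-- the order of pre-conditions -/
structure le (c' c : Pre) : Prop where
  u : c.u ⊆ c'.u
  C : c.C ⊆ c'.C
  T : ∀ t ∈ c.T, ∃ h', (t.1, t.2.1, h') ∈ c'.T ∧ K.L t.2.1 (c'.res t.1) h' t.2.2

/-- the order of the iteration with the iterand coded by `x` -/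
structure leR (x : O) (a' a : Pre × O) : Prop where
  le : K.le a'.1 a.1
  L : K.L x a'.1 a'.2 a.2

/-- the underlying set of the iteration of `S` with a preorder on `ω₁` -/
def RS (S : Set Pre) : Set (Pre × O) := {a | a.1 ∈ S ∧ a.2 < w1}

/-- `D` is a dense open subset of the iteration -/
structure DO (S : Set Pre) (x : O) (D : Set (Pre × O)) : Prop where
  sub : D ⊆ RS S
  dense : ∀ a ∈ RS S, ∃ d ∈ D, K.leR x d a
  opn : ∀ d ∈ D, ∀ a ∈ RS S, K.leR x a d → a ∈ D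

/-- the pair `a` belongs to `N` -/
structure RIn (N : Set O) (a : Pre × O) : Prop where
  fst : K.PIn N a.1
  snd : a.2 ∈ N

/-- `a` is generic over `N` for the iteration of `S` (at the level `β`) with the iterand coded by `x` -/
def Gen (S : Set Pre) (β x : O) (N : Set O) (a : Pre × O) : Prop :=
  ∀ y ∈ N, K.DO S x (K.en β y) → ∀ a' ∈ RS S, K.leR x a' a →
    ∃ a'' ∈ RS S, K.leR x a'' a' ∧ ∃ d ∈ K.en β y, K.RIn N d ∧ K.leR x a'' d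

/-- the iteration preserves that the Cohen reals are an increasing set (and `ω₁`) -/
def Inc (S : Set Pre) (x : O) : Prop :=
  ∀ (ι : Type) [Finite ι] (Z : Set ((Pre × O) × (ι → O))), (∀ z ∈ Z, z.1 ∈ RS S) → ∀ a0 ∈ RS S,
    (∀ a ∈ RS S, K.leR x a a0 → ∀ γ < w1, ∃ z ∈ Z, (∀ i, γ < z.2 i ∧ z.2 i < w1) ∧
      ∃ a' ∈ RS S, K.leR x a' a ∧ K.leR x a' z.1) →
    ∃ z1 ∈ Z, ∃ z2 ∈ Z, ∃ a' ∈ RS S, K.leR x a' a0 ∧ K.leR x a' z1.1 ∧ K.leR x a' z2.1 ∧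
      Lt a'.1.u z1.2 z2.2

/-- countable nodes, without the clause about the bottom node -/
structure Nice0 (N : Set O) : Prop where
  count : N.Countable
  fn : ∀ x ∈ N, Cl (K.fn x) N
  nat : ∀ n : ℕ, (n : O) ∈ N
  seg : ∀ ξ ∈ N, ξ < w1 → Set.Iio ξ ⊆ N
  mem : ∀ M : Set O, M.Countable → K.cn M ∈ N → M ⊆ N
  cap : ∀ M : Set O, M.Countable → K.cn M ∈ N → ∀ α ∈ N, K.cn (M ∩ Set.Iio α) ∈ N
  del : ∀ M : Set O, M.Countable → K.cn M ∈ N → ∀ δ < w1, M ∩ Set.Iio w1 = Set.Iio δ → δ ∈ N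

/-- the Cohen conditions -/
def V0 : Set Pre := {c | c.T = ∅ ∧ c.C = ∅ ∧ (∀ ξ n b b', (ξ, n, b) ∈ c.u → (ξ, n, b') ∈ c.u → b = b') ∧
  ∀ v ∈ c.u, v.1 < w1}

/-- the property of the bottom node -/
structure Bot (x : O) : Prop where
  L : ∀ g ∈ V0, ∀ h' < w1, ∀ h < w1, K.L x g h' h
  gen : ∀ N, K.Nice0 N → x ∈ N → ∀ a ∈ RS V0, K.Gen V0 0 x N a

/-- the bottom node is `(0, xb)` -/
noncomputable def xb : O := sInf {x | K.Bot x}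

/-- countable nodes -/
structure Nice (N : Set O) : Prop extends K.Nice0 N where
  xb : K.xb ∈ N

/-- heights of transitive nodes -/
structure Tr (α : O) : Prop where
  w1 : w1 < α
  xb : K.xb < α
  cn : ∀ N : Set O, N.Countable → N ⊆ Set.Iio α → K.cn N < α
  bd : ∀ x < α, K.bd x ≤ α
  io : ∀ β < α, K.io β ≤ α

/-- the iterand coded by `x` may be used at the node `(β, x)`; `S` is the forcing notion at the level `β` -/
structure Good (S : Set Pre) (β x : O) : Prop where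
  tr : K.Tr β ∨ (β = 0 ∧ x = K.xb)
  mono : ∀ g ∈ S, ∀ g' ∈ S, K.le g' g → ∀ h' < w1, ∀ h < w1, K.L x g h' h → K.L x g' h' h
  refl : ∀ g ∈ S, ∀ h < w1, K.L x g h h
  trans : ∀ g ∈ S, ∀ h < w1, ∀ h' < w1, ∀ h'' < w1, K.L x g h'' h' → K.L x g h' h → K.L x g h'' h
  top : ∀ g ∈ S, ∀ h < w1, K.L x g h 0
  proper : ∀ l : List (Set O), l.Pairwise (fun N N' => K.cn N ∈ N') → (∀ N ∈ l, K.Nice N ∧ β ∈ N ∧ x ∈ N) →
    ∀ g ∈ S, (0 < β → ∀ N ∈ l, N ∩ Set.Iio β ∈ g.C) → ∀ h < w1, (∀ N ∈ l, h ∈ N) →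
    ∃ a ∈ RS S, K.leR x a (g, h) ∧ ∀ N ∈ l, K.Gen S β x N a
  inc : K.Inc S x

/-- the combinatorial properties of conditions -/
structure Chain (c : Pre) : Prop where
  nice : ∀ N ∈ c.C, K.Nice N
  tr : ∀ t ∈ c.T, (K.Tr t.1 ∨ (t.1 = 0 ∧ t.2.1 = K.xb)) ∧ t.2.2 < w1
  eq : ∀ t ∈ c.T, ∀ t' ∈ c.T, t.1 = t'.1 → t = t'
  lt : ∀ t ∈ c.T, ∀ t' ∈ c.T, t.1 < t'.1 → t.2.1 < t'.1
  bot : (c.T.Nonempty ∨ c.C.Nonempty) → ∃ h, (0, K.xb, h) ∈ c.T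
  base : ∀ N ∈ c.C, ∀ t ∈ c.T, ¬ N ⊆ Set.Iio t.1 → (∀ t' ∈ c.T, ¬ N ⊆ Set.Iio t'.1 → t'.1 ≤ t.1) →
    t.1 ∈ N ∧ t.2.1 ∈ N
  cap : ∀ N ∈ c.C, ∀ t ∈ c.T, 0 < t.1 → t.1 ∈ N → t.2.1 ∈ N → N ∩ Set.Iio t.1 ∈ c.C
  comp : ∀ N ∈ c.C, ∀ N' ∈ c.C, (∀ t ∈ c.T, N ⊆ Set.Iio t.1 ↔ N' ⊆ Set.Iio t.1) →
    N = N' ∨ K.cn N ∈ N' ∨ K.cn N' ∈ N
  u_fun : ∀ ξ n b b', (ξ, n, b) ∈ c.u → (ξ, n, b') ∈ c.u → b = b'
  u_lt : ∀ v ∈ c.u, v.1 < w1

/-- conditions, relative to the forcing notions `W β` at the lower levels -/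
structure OkW (W : O → Set Pre) (c : Pre) : Prop where
  chain : K.Chain c
  good : ∀ t ∈ c.T, K.Good (W t.1) t.1 t.2.1
  gen : ∀ t ∈ c.T, ∀ N ∈ c.C, t.1 ∈ N → t.2.1 ∈ N → K.Gen (W t.1) t.1 t.2.1 N (c.res t.1, t.2.2)

open Classical in
/-- the forcing notion at the level `α`: the conditions below `α` -/
noncomputable def V : O → Set Pre :=
  WellFounded.fix (C := fun _ => Set Pre) Ordinal.lt_wf
    (fun α V' => {c | Below α c ∧ K.OkW (fun β => if h : β < α then V' β h else ∅) c})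

/-- the conditions -/
def Ok (c : Pre) : Prop := K.OkW K.V c

/-- `c'` is a condition which extends `c` -/
def ex (c' c : Pre) : Prop := K.Ok c' ∧ K.le c' c

end Code

end Pool.Agent.Lib.MP_8f49b0_lc.MM
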