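import Pool.Agent.Lib.MP_8f49b0_lc.MM.I.Top

/-! # Conditions with a last transitive node (module I-OKTOP)

`ok_top`: `Chain`: `base` for the new nodes: `w` is the largest transitive node; `cap` for the new nodes and a lower
transitive node `s`: `N ∩ Set.Iio s.1 = (N ∩ Set.Iio w.1) ∩ Set.Iio s.1` and `Chain.cap_all` for `g`; `comp`: in the same block both or none are below `w`; `gen` for the new nodes and a lower
transitive node `s`: `gen_inter` (`Tr w.1`). -/

namespace Pool.Agent.Lib.MP_8f49b0_lc.MM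

namespace Code

variable {K : Code}

theorem ok_top {g : Pre} {w : O × O × O} {C : Finset (Set O)} (hg : g ∈ K.V w.1)
    (hgood : K.Good (K.V w.1) w.1 w.2.1) (hw : w.2.2 < w1) (hbot : 0 < w.1 → ∃ h, (0, K.xb, h) ∈ g.T)
    (hC : ∀ N ∈ C, ¬ N ⊆ Set.Iio w.1 → TopN K g w N)
    (hcomp : ∀ N ∈ C, ∀ N' ∈ C, ¬ N ⊆ Set.Iio w.1 → ¬ N' ⊆ Set.Iio w.1 → N = N' ∨ K.cn N ∈ N' ∨ K.cn N' ∈ N) :
    K.Ok (g.top w C) := by
  have hb := (mem_V.1 hg).1
  have hok := (mem_V.1 hg).2
  have hpos : 0 < w.1 → K.Tr w.1 := by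
    intro h0
    rcases hgood.tr with h | h
    · exact h
    · exact absurd h.1 h0.ne'
  have hcap : ∀ N ∈ C, ¬ N ⊆ Set.Iio w.1 → ∀ t ∈ g.T, N ∩ Set.Iio w.1 ∈ g.C := by
    intro N hN hNw t ht
    exact (hC N hN hNw).cap (lt_of_le_of_lt zero_le (hb.T t ht).1)
  have hres : ∀ t ∈ g.T, (g.top w C).res t.1 = g.res t.1 := by
    intro t ht
    rw [← res_res (g.top w C) (hb.T t ht).1.le, top_res C hg]
  refine ⟨⟨?_, ?_, ?_, ?_, ?_, ?_, ?_, ?_, ?_, ?_⟩, ?_, ?_⟩
  · intro N hN
    rcases mem_top_C.1 hN with h | h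
    · exact hok.chain.nice N h
    · exact (hC N h.1 h.2).nice
  · intro t ht
    rcases mem_top_T.1 ht with rfl | h
    · exact ⟨hgood.tr, hw⟩
    · exact hok.chain.tr t h
  · intro t ht t' ht' heq
    rcases mem_top_T.1 ht with rfl | h
    · rcases mem_top_T.1 ht' with rfl | h'
      · rfl
      · exact absurd heq (hb.T t' h').1.ne'
    · rcases mem_top_T.1 ht' with rfl | h'
      · exact absurd heq (hb.T t h).1.ne
      · exact hok.chain.eq t h t' h' heq
  · intro t ht t' ht' hlt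
    rcases mem_top_T.1 ht with rfl | h
    · rcases mem_top_T.1 ht' with rfl | h'
      · exact absurd hlt (lt_irrefl _)
      · exact absurd hlt (hb.T t' h').1.not_gt
    · rcases mem_top_T.1 ht' with rfl | h'
      · exact (hb.T t h).2.1
      · exact hok.chain.lt t h t' h' hlt
  · intro _
    rcases eq_or_ne w.1 0 with h0 | h0
    · rcases hgood.tr with h | h
      · exact absurd h0 h.pos.ne'
      · refine ⟨w.2.2, mem_top_T.2 (Or.inl ?_)⟩
        rw [← h.2, ← h0]
    · obtain ⟨h, hh⟩ := hbot (lt_of_le_of_ne zero_le h0.symm)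
      exact ⟨h, mem_top_T.2 (Or.inr hh)⟩
  · intro N hN t ht hnot hmax
    rcases mem_top_C.1 hN with hNg | hNC
    · rcases mem_top_T.1 ht with rfl | h
      · exact absurd (hb.C N hNg).2 hnot
      · exact hok.chain.base N hNg t h hnot fun t' ht' => hmax t' (mem_top_T.2 (Or.inr ht'))
    · rcases mem_top_T.1 ht with rfl | h
      · exact ⟨(hC N hNC.1 hNC.2).fst, (hC N hNC.1 hNC.2).snd⟩
      · exact absurd (hmax w (mem_top_T.2 (Or.inl rfl)) hNC.2) (hb.T t h).1.not_ge
  · intro N hN t ht h0 h1 h2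
    rcases mem_top_C.1 hN with hNg | hNC
    · rcases mem_top_T.1 ht with rfl | h
      · exact absurd (show t.1 < t.1 from (hb.C N hNg).2 h1) (lt_irrefl _)
      · exact mem_top_C.2 (Or.inl (hok.chain.cap N hNg t h h0 h1 h2))
    · rcases mem_top_T.1 ht with rfl | h
      · exact mem_top_C.2 (Or.inl ((hC N hNC.1 hNC.2).cap h0))
      · have h3 := hok.chain.cap_all (hcap N hNC.1 hNC.2 t h) h h0
        have h4 : N ∩ Set.Iio w.1 ∩ Set.Iio t.1 = N ∩ Set.Iio t.1 := by
          rw [Set.inter_assoc, Set.inter_eq_right.2 (Set.Iio_subset_Iio (hb.T t h).1.le)]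
        rw [h4] at h3
        exact mem_top_C.2 (Or.inl h3)
  · intro N hN N' hN' hblock
    have hw1 := hblock w (mem_top_T.2 (Or.inl rfl))
    rcases mem_top_C.1 hN with hNg | hNC
    · rcases mem_top_C.1 hN' with hNg' | hNC'
      · exact hok.chain.comp N hNg N' hNg' fun t ht => hblock t (mem_top_T.2 (Or.inr ht))
      · exact absurd (hw1.1 (hb.C N hNg).2) hNC'.2
    · rcases mem_top_C.1 hN' with hNg' | hNC'
      · exact absurd (hw1.2 (hb.C N' hNg').2) hNC.2
      · exact hcomp N hNC.1 N' hNC'.1 hNC.2 hNC'.2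
  · exact hok.chain.u_fun
  · exact hok.chain.u_lt
  · intro t ht
    rcases mem_top_T.1 ht with rfl | h
    · exact hgood
    · exact hok.good t h
  · intro t ht N hN h1 h2
    rcases mem_top_C.1 hN with hNg | hNC
    · rcases mem_top_T.1 ht with rfl | h
      · exact absurd (show t.1 < t.1 from (hb.C N hNg).2 h1) (lt_irrefl _)
      · rw [hres t h]
        exact hok.gen t h N hNg h1 h2
    · rcases mem_top_T.1 ht with rfl | h
      · rw [top_res C hg]
        exact (hC N hNC.1 hNC.2).gen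
      · rw [hres t h]
        have h0 : 0 < w.1 := lt_of_le_of_lt zero_le (hb.T t h).1
        refine (gen_inter (hb.T t h).1 (hpos h0) ⟨hok.res_mem h, (hok.chain.tr t h).2⟩).1 ?_
        exact hok.gen t h _ (hcap N hNC.1 hNC.2 t h) ⟨h1, (hb.T t h).1⟩ ⟨h2, (hb.T t h).2.1⟩

end Code

end Pool.Agent.Lib.MP_8f49b0_lc.MM
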