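import Pool.Agent.Lib.MP_8f49b0_lc.MM.S.BotInc
import Pool.Agent.Lib.MP_8f49b0_lc.MM.I.OkTop

/-! # The bottom node is good (module I-GOODBOT)

`good_bot`: `V_zero`, `bot_xb`, `inc_bot`; in `proper` take `a = (g, h)`; all `Nice` sets contain `xb`.
`add_bot`: if `c.T` is empty, so is `c.C` (`Chain.bot`), and `c ∈ K.V 0`; take `c.top (0, xb, 0) ∅`. -/

namespace Pool.Agent.Lib.MP_8f49b0_lc.MM

namespace Code

variable (K : Code)

theorem good_bot : K.Good (K.V 0) 0 K.xb := by
  have hbot := K.bot_xb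
  rw [V_zero]
  refine ⟨Or.inr ⟨rfl, rfl⟩, ?_, ?_, ?_, ?_, ?_, K.inc_bot⟩
  · intro g _ g' hg' _ h' hh' h hh _
    exact hbot.L g' hg' h' hh' h hh
  · intro g hg h hh
    exact hbot.L g hg h hh h hh
  · intro g hg h hh h' _ h'' hh'' _ _
    exact hbot.L g hg h'' hh'' h hh
  · intro g hg h hh
    exact hbot.L g hg h hh 0 (Ordinal.omega_pos 1)
  · intro l _ hl g hg _ h hh _
    refine ⟨(g, h), ⟨hg, hh⟩, ⟨le_refl_of_ok (ok_of_mem_V0 hg), hbot.L g hg h hh h hh⟩, ?_⟩
    intro N hN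
    exact hbot.gen N (hl N hN).1.toNice0 (hl N hN).2.2 (g, h) ⟨hg, hh⟩

variable {K}

/-- add the bottom node -/
theorem add_bot {c : Pre} (hc : K.Ok c) :
    ∃ c', K.ex c' c ∧ (∃ h, (0, K.xb, h) ∈ c'.T) ∧ (∀ γ, 0 < γ → K.xb < γ → Below γ c → Below γ c') ∧
      (∀ N, K.Nice N → K.PIn N c → K.PIn N c') ∧ c'.C = c.C := by
  by_cases hne : c.T.Nonempty ∨ c.C.Nonempty
  · exact ⟨c, ex_refl hc, hc.chain.bot hne, fun _ _ _ h => h, fun _ _ h => h, rfl⟩
  · rw [not_or, Finset.not_nonempty_iff_eq_empty, Finset.not_nonempty_iff_eq_empty] at hne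
    obtain ⟨hT, hC⟩ := hne
    have hV : c ∈ K.V (0, K.xb, (0 : O)).1 := by
      show c ∈ K.V 0
      rw [V_zero]
      exact ⟨hT, hC, hc.chain.u_fun, hc.chain.u_lt⟩
    have hCC : (c.top (0, K.xb, (0 : O)) ∅).C = c.C := by
      ext N
      rw [mem_top_C]
      constructor
      · rintro (h | h)
        · exact h
        · exact absurd h.1 (Finset.notMem_empty N)
      · exact Or.inl
    refine ⟨c.top (0, K.xb, (0 : O)) ∅, ⟨?_, ?_⟩, ⟨0, mem_top_T.2 (Or.inl rfl)⟩, ?_, ?_, hCC⟩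
    · refine ok_top hV K.good_bot (Ordinal.omega_pos 1) (fun h => absurd h (lt_irrefl _)) ?_ ?_
      · intro N hN
        exact absurd hN (Finset.notMem_empty N)
      · intro N hN
        exact absurd hN (Finset.notMem_empty N)
    · refine top_le hV (hc.le_res 0) ?_ ?_
      · intro t ht
        rw [hT] at ht
        exact absurd ht (Finset.notMem_empty t)
      · intro N hN
        rw [hC] at hN
        exact absurd hN (Finset.notMem_empty N)
    · intro γ h0 hx _
      exact below_top hV h0 hx (Ordinal.omega_pos 1) fun N hN => absurd hN (Finset.notMem_empty N)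
    · intro N hN hP
      refine ⟨?_, ?_, ?_⟩
      · intro t ht
        rcases mem_top_T.1 ht with rfl | h
        · exact ⟨hN.zero_mem, hN.xb, hN.zero_mem⟩
        · exact hP.T t h
      · rw [hCC]
        exact hP.C
      · exact hP.u

/-- add a transitive node above everything -/
theorem add_tr {c : Pre} {α x h : O} (hc : c ∈ K.V α) (hα : K.Tr α) (hx : K.Good (K.V α) α x) (hh : h < w1) :
    ∃ c', K.ex c' c ∧ (α, x, h) ∈ c'.T ∧ (∀ t ∈ c'.T, t.1 ≤ α) ∧ K.le (c'.res α) c ∧ c'.res α ∈ K.V α ∧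
      c'.C = c.C ∧ ∀ γ, α < γ → x < γ → Below γ c' := by
  have hb := (mem_V.1 hc).1
  have hok := (mem_V.1 hc).2
  obtain ⟨c1, h1, h2, h3, _, h5⟩ := add_bot hok
  have hb1 : Below α c1 := h3 α hα.pos hα.xb hb
  have hV : c1 ∈ K.V (α, x, h).1 := mem_V.2 ⟨hb1, h1.1⟩
  have hCC : (c1.top (α, x, h) ∅).C = c.C := by
    ext N
    rw [mem_top_C, h5]
    constructor
    · rintro (h | h)
      · exact h
      · exact absurd h.1 (Finset.notMem_empty N)
    · exact Or.inl
  have hres : (c1.top (α, x, h) ∅).res α = c1 := top_res ∅ hV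
  refine ⟨c1.top (α, x, h) ∅, ⟨?_, ?_⟩, mem_top_T.2 (Or.inl rfl), ?_, ?_, ?_, hCC, ?_⟩
  · refine ok_top hV hx hh (fun _ => h2) ?_ ?_
    · intro N hN
      exact absurd hN (Finset.notMem_empty N)
    · intro N hN
      exact absurd hN (Finset.notMem_empty N)
  · refine top_le hV ?_ ?_ ?_
    · show K.le c1 (c.res α)
      rw [hb.res_eq]
      exact h1.2
    · intro t ht
      exact Or.inl (hb.T t ht).1
    · intro N hN hnot
      exact absurd (hb.C N hN).2 hnot
  · intro t ht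
    rcases mem_top_T.1 ht with rfl | h
    · exact le_refl _
    · exact (hb1.T t h).1.le
  · rw [hres]
    exact h1.2
  · rw [hres]
    exact hV
  · intro γ h6 h7
    exact below_top hV h6 h7 hh fun N hN => absurd hN (Finset.notMem_empty N)

end Code

end Pool.Agent.Lib.MP_8f49b0_lc.MM
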