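import Pool.Agent.Lib.MP_8f49b0_lc.MM.I.GoodBot

/-! # Adding a countable node (module I-ADD), (3.6) of the paper

`add_aux`: induction on the number of transitive nodes of `c` above `t`. Choose by `Good.proper` for the one-element list `[M]` some
`(g', h') ≤ (g, t.2.2)` which is generic for `M`. If `t` is the last transitive node, take `g'.top (t.1, t.2.1, h') (insert M c.C)`. Otherwise let `t'` be the next transitive
node, and `g1 = g'.top (t.1, t.2.1, h') (insert (M ∩ Set.Iio t'.1) (c.C.filter (· ⊆ Set.Iio t'.1)))`; it is in `K.V t'.1` and below `c.res t'.1`; continue with `t'` and `g1`.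
All nodes of `c` are elements of `M` (`PIn`), so `comp` is clear. -/

namespace Pool.Agent.Lib.MP_8f49b0_lc.MM

namespace Code

variable {K : Code}

private theorem add_good {c : Pre} (hc : K.Ok c) {M : Set O} (hM : K.Nice M) (hcM : K.PIn M c)
    {t : O × O × O} (ht : t ∈ c.T) {g : Pre} (hg : g ∈ K.V t.1) (hgc : K.le g (c.res t.1))
    (hMg : 0 < t.1 → M ∩ Set.Iio t.1 ∈ g.C) :
    ∃ g' h', g' ∈ K.V t.1 ∧ h' < w1 ∧ K.le g' g ∧ K.leR t.2.1 (g', h') (c.res t.1, t.2.2) ∧
      TopN K g' (t.1, t.2.1, h') M ∧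
      ∀ N ∈ c.C, ¬ N ⊆ Set.Iio t.1 → (∀ s ∈ c.T, t.1 < s.1 → N ⊆ Set.Iio s.1) →
        TopN K g' (t.1, t.2.1, h') N := by
  have hgood := hc.good t ht
  have htr := hc.chain.tr t ht
  have htM := hcM.T t ht
  obtain ⟨a, ha, hle, hgen⟩ := hgood.proper [M] (List.pairwise_singleton _ _)
    (fun N hN => by
      rw [List.mem_singleton] at hN
      subst hN
      exact ⟨hM, htM.1, htM.2.1⟩) g hg
    (fun h0 N hN => by
      rw [List.mem_singleton] at hN
      subst hN
      exact hMg h0) t.2.2 htr.2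
    (fun N hN => by
      rw [List.mem_singleton] at hN
      subst hN
      exact htM.2.2)
  obtain ⟨g', h'⟩ := a
  have hres : c.res t.1 ∈ K.V t.1 := hc.res_mem ht
  have hres' : (c.res t.1, t.2.2) ∈ RS (K.V t.1) := ⟨hres, htr.2⟩
  have hg2 : (g, t.2.2) ∈ RS (K.V t.1) := ⟨hg, htr.2⟩
  have hle2 : K.leR t.2.1 (g', h') (c.res t.1, t.2.2) :=
    leR_trans hgood ha hg2 hres' hle (leR_fst hgood hg hgc htr.2)
  refine ⟨g', h', ha.1, ha.2, hle.le, hle2, ⟨hM, htM.1, htM.2.1, ?_, ?_⟩, ?_⟩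
  · intro h0
    exact hle.le.C (hMg h0)
  · exact hgen M (List.mem_singleton.mpr rfl)
  · intro N hN h1 h2
    obtain ⟨h3, h4⟩ := hc.mem_of_block ht hN h1 h2
    exact (hc.topN ht hN h3 h4).anti hgood hres' ha hle2

theorem add_aux {c : Pre} (hc : K.Ok c) {M : Set O} (hM : K.Nice M) (hcM : K.PIn M c) (n : ℕ) :
    ∀ t ∈ c.T, (c.T.filter (fun s => t.1 < s.1)).card = n → ∀ g ∈ K.V t.1, K.le g (c.res t.1) →
      (0 < t.1 → M ∩ Set.Iio t.1 ∈ g.C) →
      ∃ c', K.ex c' c ∧ M ∈ c'.C ∧ K.le (c'.res t.1) g ∧ ∀ γ, Below γ c → M ⊆ Set.Iio γ → Below γ c' := by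
  classical
  induction n using Nat.strong_induction_on with
  | _ n ih =>
  intro t ht hn g hg hgc hMg
  have hgood := hc.good t ht
  have htr := hc.chain.tr t ht
  have htM := hcM.T t ht
  obtain ⟨g', h', hg', hh', hle, hle2, hTM, hTN⟩ := add_good hc hM hcM ht hg hgc hMg
  have hbot : 0 < t.1 → ∃ h, (0, K.xb, h) ∈ g'.T := by
    intro h0
    obtain ⟨h1, h2⟩ := hc.chain.bot (Or.inl ⟨t, ht⟩)
    have h3 : (0, K.xb, h1) ∈ (c.res t.1).T := mem_res_T.mpr ⟨h2, h0⟩
    obtain ⟨h4, h5, -⟩ := hle2.le.T _ h3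
    exact ⟨h4, h5⟩
  by_cases hlast : ∃ s ∈ c.T, t.1 < s.1
  · -- the next transitive node
    obtain ⟨t', ht', hmin⟩ := Finset.exists_min_image (c.T.filter (fun s => t.1 < s.1)) (fun s => s.1) (by
      obtain ⟨s, hs, hts⟩ := hlast
      exact ⟨s, Finset.mem_filter.mpr ⟨hs, hts⟩⟩)
    rw [Finset.mem_filter] at ht'
    obtain ⟨ht', htt'⟩ := ht'
    have hmin' : ∀ s ∈ c.T, t.1 < s.1 → t'.1 ≤ s.1 := fun s hs hts =>
      hmin s (Finset.mem_filter.mpr ⟨hs, hts⟩)
    have hTr' : K.Tr t'.1 := by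
      rcases (hc.chain.tr t' ht').1 with h | ⟨h, -⟩
      · exact h
      · exfalso
        rw [h] at htt'
        exact not_lt_of_ge zero_le htt'
    have hx : t.2.1 < t'.1 := hc.chain.lt t ht t' ht' htt'
    set C1 : Finset (Set O) := insert (M ∩ Set.Iio t'.1) (c.C.filter (fun N => N ⊆ Set.Iio t'.1)) with hC1
    have hMsub : M ∩ Set.Iio t'.1 ⊆ Set.Iio t'.1 := Set.inter_subset_right
    have hblock : ∀ N : Set O, N ⊆ Set.Iio t'.1 → ∀ s ∈ c.T, t.1 < s.1 → N ⊆ Set.Iio s.1 :=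
      fun N hN s hs hts => hN.trans (Set.Iio_subset_Iio (hmin' s hs hts))
    have hTop : ∀ N ∈ C1, ¬ N ⊆ Set.Iio t.1 → TopN K g' (t.1, t.2.1, h') N := by
      intro N hN hnot
      rw [hC1, Finset.mem_insert, Finset.mem_filter] at hN
      rcases hN with rfl | ⟨hN, hN2⟩
      · refine ⟨hM.inter hTr', ⟨htM.1, htt'⟩, ⟨htM.2.1, hx⟩, ?_, ?_⟩
        · intro h0
          have h1 : (M ∩ Set.Iio t'.1) ∩ Set.Iio t.1 = M ∩ Set.Iio t.1 := by
            rw [Set.inter_assoc, Set.Iio_inter_Iio, min_eq_right htt'.le]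
          change (M ∩ Set.Iio t'.1) ∩ Set.Iio t.1 ∈ g'.C
          rw [h1]
          exact hTM.cap h0
        · exact (gen_inter htt' hTr' ⟨hg', hh'⟩).mpr hTM.gen
      · exact hTN N hN hnot (hblock N hN2)
    have hok : K.Ok (g'.top (t.1, t.2.1, h') C1) := by
      refine ok_top hg' hgood hh' hbot hTop ?_
      intro N hN N' hN' h1 h2
      rw [hC1, Finset.mem_insert, Finset.mem_filter] at hN hN'
      have hcn : ∀ N ∈ c.C, N ⊆ Set.Iio t'.1 → K.cn N ∈ M ∩ Set.Iio t'.1 := fun N hN hN2 =>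
        ⟨(hcM.C N hN).2, hTr'.cn N (hcM.C N hN).1 hN2⟩
      rcases hN with rfl | ⟨hN, hN2⟩
      · rcases hN' with rfl | ⟨hN', hN2'⟩
        · exact Or.inl rfl
        · exact Or.inr (Or.inr (hcn N' hN' hN2'))
      · rcases hN' with rfl | ⟨hN', hN2'⟩
        · exact Or.inr (Or.inl (hcn N hN hN2))
        · exact hc.comp_of_block ht hN hN' h1 (hblock N hN2) h2 (hblock N' hN2')
    have hbelow : Below t'.1 (g'.top (t.1, t.2.1, h') C1) := by
      refine below_top hg' htt' hx hh' ?_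
      intro N hN _
      rw [hC1, Finset.mem_insert, Finset.mem_filter] at hN
      rcases hN with rfl | ⟨hN, hN2⟩
      · exact ⟨(hM.inter hTr').count, hMsub⟩
      · exact ⟨(hcM.C N hN).1, hN2⟩
    have hV : g'.top (t.1, t.2.1, h') C1 ∈ K.V t'.1 := mem_V.mpr ⟨hbelow, hok⟩
    have hlec : K.le (g'.top (t.1, t.2.1, h') C1) (c.res t'.1) := by
      refine top_le hg' ?_ ?_ ?_
      · change K.le g' ((c.res t'.1).res t.1)
        rw [res_res c htt'.le]
        exact hle2.le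
      · intro s hs
        rw [mem_res_T] at hs
        change s.1 < t.1 ∨ (s.1 = t.1 ∧ s.2.1 = t.2.1 ∧ K.L t.2.1 g' h' s.2.2)
        rcases lt_trichotomy s.1 t.1 with h1 | h1 | h1
        · exact Or.inl h1
        · right
          have h2 := hc.chain.eq s hs.1 t ht h1
          subst h2
          exact ⟨rfl, rfl, hle2.L⟩
        · exact absurd (hmin' s hs.1 h1) (not_le.mpr hs.2)
      · intro N hN _
        rw [mem_res_C] at hN
        rw [hC1, Finset.mem_insert, Finset.mem_filter]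
        exact Or.inr hN
    have hMC : M ∩ Set.Iio t'.1 ∈ (g'.top (t.1, t.2.1, h') C1).C := by
      rw [mem_top_C]
      refine Or.inr ⟨by rw [hC1]; exact Finset.mem_insert_self _ _, ?_⟩
      intro h1
      exact lt_irrefl t.1 (h1 ⟨htM.1, htt'⟩)
    have hcard : (c.T.filter (fun s => t'.1 < s.1)).card < n := by
      rw [← hn]
      apply Finset.card_lt_card
      rw [Finset.ssubset_iff_of_subset]
      · exact ⟨t', Finset.mem_filter.mpr ⟨ht', htt'⟩, fun h => lt_irrefl _ (Finset.mem_filter.mp h).2⟩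
      · intro s hs
        rw [Finset.mem_filter] at hs ⊢
        exact ⟨hs.1, htt'.trans hs.2⟩
    obtain ⟨c', h1, h2, h3, h4⟩ := ih _ hcard t' ht' rfl _ hV hlec (fun _ => hMC)
    refine ⟨c', h1, h2, ?_, h4⟩
    have h5 := h3.res t.1
    rw [res_res c' htt'.le] at h5
    have h6 : (g'.top (t.1, t.2.1, h') C1).res t.1 = g' := top_res C1 hg'
    rw [h6] at h5
    exact le_trans_of_ok (h1.1.res t.1) (mem_V.mp hg').2 (mem_V.mp hg).2 h5 hle
  · -- `t` is the last transitive node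
    push Not at hlast
    have hvac : ∀ N : Set O, ∀ s ∈ c.T, t.1 < s.1 → N ⊆ Set.Iio s.1 := fun N s hs hts =>
      absurd hts (not_lt.mpr (hlast s hs))
    set C1 : Finset (Set O) := insert M c.C with hC1
    have hTop : ∀ N ∈ C1, ¬ N ⊆ Set.Iio t.1 → TopN K g' (t.1, t.2.1, h') N := by
      intro N hN hnot
      rw [hC1, Finset.mem_insert] at hN
      rcases hN with rfl | hN
      · exact hTM
      · exact hTN N hN hnot (hvac N)
    have hok : K.Ok (g'.top (t.1, t.2.1, h') C1) := by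
      refine ok_top hg' hgood hh' hbot hTop ?_
      intro N hN N' hN' h1 h2
      rw [hC1, Finset.mem_insert] at hN hN'
      rcases hN with rfl | hN
      · rcases hN' with rfl | hN'
        · exact Or.inl rfl
        · exact Or.inr (Or.inr (hcM.C N' hN').2)
      · rcases hN' with rfl | hN'
        · exact Or.inr (Or.inl (hcM.C N hN).2)
        · exact hc.comp_of_block ht hN hN' h1 (hvac N) h2 (hvac N')
    refine ⟨g'.top (t.1, t.2.1, h') C1, ⟨hok, ?_⟩, ?_, ?_, ?_⟩
    · refine top_le hg' hle2.le ?_ ?_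
      · intro s hs
        change s.1 < t.1 ∨ (s.1 = t.1 ∧ s.2.1 = t.2.1 ∧ K.L t.2.1 g' h' s.2.2)
        rcases lt_or_eq_of_le (hlast s hs) with h1 | h1
        · exact Or.inl h1
        · right
          have h2 := hc.chain.eq s hs t ht h1
          subst h2
          exact ⟨rfl, rfl, hle2.L⟩
      · intro N hN _
        rw [hC1]
        exact Finset.mem_insert_of_mem hN
    · rw [mem_top_C]
      refine Or.inr ⟨by rw [hC1]; exact Finset.mem_insert_self _ _, ?_⟩
      intro h1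
      exact lt_irrefl t.1 (h1 htM.1)
    · have h6 : (g'.top (t.1, t.2.1, h') C1).res t.1 = g' := top_res C1 hg'
      rw [h6]
      exact hle
    · intro γ hγ hMγ
      refine below_top hg' (hγ.T t ht).1 (hγ.T t ht).2.1 hh' ?_
      intro N hN _
      rw [hC1, Finset.mem_insert] at hN
      rcases hN with rfl | hN
      · exact ⟨hM.count, hMγ⟩
      · exact hγ.C N hN

/-- adding a countable node relative to an extension of the restriction to a transitive node -/
theorem add_rel {c : Pre} (hc : K.Ok c) {M : Set O} (hM : K.Nice M) (hcM : K.PIn M c) {t : O × O × O} (ht : t ∈ c.T)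
    {g : Pre} (hg : g ∈ K.V t.1) (hgc : K.le g (c.res t.1)) (hMg : 0 < t.1 → M ∩ Set.Iio t.1 ∈ g.C) :
    ∃ c', K.ex c' c ∧ M ∈ c'.C ∧ K.le (c'.res t.1) g ∧ ∀ γ, Below γ c → M ⊆ Set.Iio γ → Below γ c' :=
  add_aux hc hM hcM _ t ht rfl g hg hgc hMg

/-- adding a countable node -/
theorem add_count {c : Pre} (hc : K.Ok c) {M : Set O} (hM : K.Nice M) (hcM : K.PIn M c) :
    ∃ c', K.ex c' c ∧ M ∈ c'.C ∧ ∀ γ, Below γ c → M ⊆ Set.Iio γ → Below γ c' := by
  obtain ⟨c1, h1, ⟨h, h2⟩, h3, h4, h5⟩ := add_bot hc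
  have h6 : c1.res 0 ∈ K.V 0 := by
    have := h1.1.res_mem h2
    exact this
  obtain ⟨c', h7, h8, h9, h10⟩ := add_rel h1.1 hM (h4 M hM hcM) h2 (g := c1.res 0) h6
    (le_refl_of_ok (mem_V.1 h6).2) (fun h0 => absurd h0 (lt_irrefl _))
  refine ⟨c', ex_trans hc h7 h1, h8, fun γ hγ hMγ => h10 γ (h3 γ ?_ ?_ hγ) hMγ⟩
  · exact hMγ hM.zero_mem
  · exact hMγ hM.xb

end Code

end Pool.Agent.Lib.MP_8f49b0_lc.MM
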