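import Pool.Agent.Lib.MP_8f49b0_lc.MM.I.AmDefs

/-! # Amalgamation, no transitive node of `t` above `w` (module I-AMBASE)

`c' = (c.res w.1).top w (c.C ∪ t.C)`. Use `ok_top`: for the nodes of `c` above `w` use `Ok.mem_of_block`, `Ok.topN`; for those of `t` use the same for `t` and
`(w.1, w.2.1, k)`, and `TopN.anti` with `hA.le` (`N ∩ Set.Iio w.1 ∈ (t.res w.1).C ⊆ (c.res w.1).C`). `hcomp` for `N ∈ c.C`, `N' ∈ t.C`: `comp` for `N`, `M`: if `N = M` then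
`K.cn N' ∈ M`; if `K.cn N ∈ M` then `N ∈ t.C` by `hA.B`; if `K.cn M ∈ N` then `M ⊆ N`. `c' ≤ c`: `c = (c.res w.1).top w c.C`, or `top_le`. `c' ≤ t`: `top_le`. -/

namespace Pool.Agent.Lib.MP_8f49b0_lc.MM

namespace Code

variable {K : Code}

theorem am_base {c : Pre} {M : Set O} {w : O × O × O} {t : Pre} {k : O} (hA : Am K c M w t k)
    (hlast : ∀ s ∈ c.T, s.1 ≤ w.1) (h0 : ∀ s ∈ t.T, s.1 ≤ w.1) :
    ∃ c', K.ex c' c ∧ K.le c' t ∧ ∀ γ, Below γ c → Below γ t → Below γ c' := by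
  classical
  have hg : c.res w.1 ∈ K.V w.1 := hA.okc.res_mem hA.hw
  have hgt : t.res w.1 ∈ K.V w.1 := Ok.res_mem (t := (w.1, w.2.1, k)) hA.okt hA.wt
  have hgood : K.Good (K.V w.1) w.1 w.2.1 := hA.okc.good w hA.hw
  have hw : w.2.2 < w1 := (hA.okc.chain.tr w hA.hw).2
  have hk : k < w1 := (hA.okt.chain.tr _ hA.wt).2
  have vc : ∀ N : Set O, ∀ s ∈ c.T, w.1 < s.1 → N ⊆ Set.Iio s.1 := fun N s hs h =>
    absurd h (not_lt.2 (hlast s hs))
  have vt : ∀ N : Set O, ∀ s ∈ t.T, w.1 < s.1 → N ⊆ Set.Iio s.1 := fun N s hs h =>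
    absurd h (not_lt.2 (h0 s hs))
  have hMn : ¬ M ⊆ Set.Iio w.1 := fun h => lt_irrefl w.1 (h hA.hw1)
  have hbot : 0 < w.1 → ∃ h, (0, K.xb, h) ∈ (c.res w.1).T := by
    intro h
    obtain ⟨h', hh⟩ := hA.okc.chain.bot (Or.inl ⟨w, hA.hw⟩)
    exact ⟨h', mem_res_T.2 ⟨hh, h⟩⟩
  have memc : ∀ N ∈ c.C, ¬ N ⊆ Set.Iio w.1 → w.1 ∈ N ∧ w.2.1 ∈ N := fun N hN h1 =>
    hA.okc.mem_of_block hA.hw hN h1 (vc N)
  have memt : ∀ N ∈ t.C, ¬ N ⊆ Set.Iio w.1 → w.1 ∈ N ∧ w.2.1 ∈ N := fun N hN h1 =>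
    hA.okt.mem_of_block hA.wt hN h1 (vt N)
  have hC : ∀ N ∈ c.C ∪ t.C, ¬ N ⊆ Set.Iio w.1 → TopN K (c.res w.1) w N := by
    intro N hN h1
    rcases Finset.mem_union.1 hN with hN | hN
    · obtain ⟨h2, h3⟩ := memc N hN h1
      exact hA.okc.topN hA.hw hN h2 h3
    · obtain ⟨h2, h3⟩ := memt N hN h1
      have h4 : TopN K (t.res w.1) (w.1, w.2.1, k) N := hA.okt.topN hA.wt hN h2 h3
      exact h4.anti hgood ⟨hgt, hk⟩ ⟨hg, hw⟩ hA.le
  have cross : ∀ N ∈ c.C, ∀ N' ∈ t.C, ¬ N ⊆ Set.Iio w.1 → ¬ N' ⊆ Set.Iio w.1 →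
      N = N' ∨ K.cn N ∈ N' ∨ K.cn N' ∈ N := by
    intro N hN N' hN' h1 h1'
    obtain ⟨h2, h3⟩ := memc N hN h1
    obtain ⟨h4, h5⟩ := hA.pin.C N' hN'
    rcases hA.okc.comp_of_block hA.hw hN hA.hM h1 (vc N) hMn (vc M) with h | h | h
    · right
      right
      rw [h]
      exact h5
    · exact hA.okt.comp_of_block hA.wt (hA.B N hN h h2 h3) hN' h1 (vt N) h1' (vt N')
    · right
      right
      exact (hA.okc.chain.nice N hN).mem M (hA.okc.chain.nice M hA.hM).count h h5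
  have hcomp : ∀ N ∈ c.C ∪ t.C, ∀ N' ∈ c.C ∪ t.C, ¬ N ⊆ Set.Iio w.1 → ¬ N' ⊆ Set.Iio w.1 →
      N = N' ∨ K.cn N ∈ N' ∨ K.cn N' ∈ N := by
    intro N hN N' hN' h1 h1'
    rcases Finset.mem_union.1 hN with hN | hN <;> rcases Finset.mem_union.1 hN' with hN' | hN'
    · exact hA.okc.comp_of_block hA.hw hN hN' h1 (vc N) h1' (vc N')
    · exact cross N hN N' hN' h1 h1'
    · rcases cross N' hN' N hN h1' h1 with h | h | h
      · exact Or.inl h.symm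
      · exact Or.inr (Or.inr h)
      · exact Or.inr (Or.inl h)
    · exact hA.okt.comp_of_block hA.wt hN hN' h1 (vt N) h1' (vt N')
  refine ⟨(c.res w.1).top w (c.C ∪ t.C), ⟨ok_top hg hgood hw hbot hC hcomp, ?_⟩, ?_, ?_⟩
  · refine top_le hg (le_refl_of_ok (hA.okc.res w.1)) ?_ ?_
    · intro s hs
      rcases lt_or_eq_of_le (hlast s hs) with h | h
      · exact Or.inl h
      · have h2 : s = w := hA.okc.chain.eq s hs w hA.hw h
        subst h2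
        exact Or.inr ⟨rfl, rfl, hgood.refl _ hg _ hw⟩
    · intro N hN _
      exact Finset.mem_union_left _ hN
  · refine top_le hg hA.le.le ?_ ?_
    · intro s hs
      rcases lt_or_eq_of_le (h0 s hs) with h | h
      · exact Or.inl h
      · have h2 : s = (w.1, w.2.1, k) := hA.okt.chain.eq s hs _ hA.wt h
        subst h2
        exact Or.inr ⟨rfl, rfl, hA.le.L⟩
    · intro N hN _
      exact Finset.mem_union_right _ hN
  · intro γ h1 h2
    refine below_top hg (h1.T w hA.hw).1 (h1.T w hA.hw).2.1 hw ?_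
    intro N hN _
    rcases Finset.mem_union.1 hN with hN | hN
    · exact h1.C N hN
    · exact h2.C N hN

end Code

end Pool.Agent.Lib.MP_8f49b0_lc.MM
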