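import Pool.Agent.Lib.MP_8f49b0_lc.MM.I.AmDefs

/-! # Amalgamation, cutting off at the last transitive node `s` of `t` (module I-AMCUT)

`ok_cut`: `c.cut w.1 s.1 = (c.res w.1).top w (image of c.C under N ↦ N ∩ Set.Iio s.1)` (or check directly); `ok_top`: `hcomp` for `N`, `N'` (not below `w`, both contain `w`): by `comp`
(`Ok.comp_of_block`) `N = N'` or `K.cn N ∈ N'` (or conversely). In the second case `K.cn (N ∩ Set.Iio s.1) ∈ N' ∩ Set.Iio s.1`: if `s.1 ∈ N'` by `Nice.cap` and `Tr.cn`; `s.1 ∈ N'` holds if `N' = M` or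
`K.cn M ∈ N'`; otherwise `K.cn N' ∈ M`, so `N' ∈ t.C` by `hA.B`, and `s.1 ∈ N'` (`Ok.mem_of_block` for `t`, `s`) or `N' ⊆ Set.Iio s.1`; in the last case
`N ⊆ N' ⊆ Set.Iio s.1` and both are unchanged.
-/

namespace Pool.Agent.Lib.MP_8f49b0_lc.MM

namespace Code

variable {K : Code}

theorem amcut_not_sub {N : Set O} {a : O} (h : a ∈ N) : ¬ N ⊆ Set.Iio a := fun h' =>
  lt_irrefl a (h' h)

/-- the nodes which are not below the last transitive node contain it -/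
theorem amcut_mem {c : Pre} {M : Set O} {w : O × O × O} {t : Pre} {k : O} (hA : Am K c M w t k)
    (hlast : ∀ s ∈ c.T, s.1 ≤ w.1) {N : Set O} (hN : N ∈ c.C) (h : ¬ N ⊆ Set.Iio w.1) :
    w.1 ∈ N ∧ w.2.1 ∈ N :=
  hA.okc.mem_of_block hA.hw hN h fun s hs hws => absurd (hlast s hs) (not_le.2 hws)

theorem amcut_comp {c : Pre} {M : Set O} {w : O × O × O} {t : Pre} {k : O} (hA : Am K c M w t k)
    (hlast : ∀ s ∈ c.T, s.1 ≤ w.1) {N N' : Set O} (hN : N ∈ c.C) (h : ¬ N ⊆ Set.Iio w.1)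
    (hN' : N' ∈ c.C) (h' : ¬ N' ⊆ Set.Iio w.1) : N = N' ∨ K.cn N ∈ N' ∨ K.cn N' ∈ N :=
  hA.okc.comp_of_block hA.hw hN hN' h (fun s hs hws => absurd (hlast s hs) (not_le.2 hws))
    h' (fun s hs hws => absurd (hlast s hs) (not_le.2 hws))

theorem amcut_tr {c : Pre} {M : Set O} {w : O × O × O} {t : Pre} {k : O} (hA : Am K c M w t k)
    {s : O × O × O} (hs : s ∈ t.T) (hws : w.1 < s.1) : K.Tr s.1 := by
  rcases (hA.okt.chain.tr s hs).1 with h | h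
  · exact h
  · rw [h.1] at hws
    exact absurd hws not_lt_zero

open Classical in
theorem amcut_eq {c : Pre} {M : Set O} {w : O × O × O} {t : Pre} {k : O} (hA : Am K c M w t k)
    (hlast : ∀ s ∈ c.T, s.1 ≤ w.1) {s : O × O × O} (hws : w.1 < s.1) :
    c.cut w.1 s.1 = (c.res w.1).top w (c.C.image (fun N => N ∩ Set.Iio s.1)) := by
  apply Pre.ext
  · ext r
    rw [mem_top_T, mem_res_T]
    change r ∈ c.T ↔ _
    constructor
    · intro hr
      rcases (hlast r hr).lt_or_eq with h | h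
      · exact Or.inr ⟨hr, h⟩
      · exact Or.inl (hA.okc.chain.eq r hr w hA.hw h)
    · rintro (rfl | h)
      · exact hA.hw
      · exact h.1
  · ext N
    rw [mem_cut_C, mem_top_C, mem_res_C]
    constructor
    · rintro (h | ⟨N', h1, h2, rfl⟩)
      · exact Or.inl h
      · refine Or.inr ⟨Finset.mem_image_of_mem _ h1, ?_⟩
        exact amcut_not_sub ⟨(amcut_mem hA hlast h1 h2).1, hws⟩
    · rintro (h | ⟨h1, h2⟩)
      · exact Or.inl h
      · obtain ⟨N', hN', rfl⟩ := Finset.mem_image.1 h1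
        exact Or.inr ⟨N', hN', fun h => h2 (Set.inter_subset_left.trans h), rfl⟩
  · rfl

theorem amcut_aux {c : Pre} {M : Set O} {w : O × O × O} {t : Pre} {k : O} (hA : Am K c M w t k)
    (hlast : ∀ s ∈ c.T, s.1 ≤ w.1) {s : O × O × O} (hs : s ∈ t.T) (hws : w.1 < s.1)
    (hmax : ∀ s' ∈ t.T, s'.1 ≤ s.1) {N₁ N₂ : Set O} (h1 : N₁ ∈ c.C) (h2 : N₂ ∈ c.C)
    (h2' : ¬ N₂ ⊆ Set.Iio w.1) (h : K.cn N₁ ∈ N₂) :
    K.cn (N₁ ∩ Set.Iio s.1) ∈ N₂ ∩ Set.Iio s.1 := by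
  have htr := amcut_tr hA hs hws
  have hn1 := hA.okc.chain.nice N₁ h1
  have hn2 := hA.okc.chain.nice N₂ h2
  have key : s.1 ∈ N₂ → K.cn (N₁ ∩ Set.Iio s.1) ∈ N₂ ∩ Set.Iio s.1 := by
    intro hs2
    exact ⟨hn2.cap N₁ hn1.count h s.1 hs2,
      htr.cn _ (hn1.count.mono Set.inter_subset_left) Set.inter_subset_right⟩
  have hsM : s.1 ∈ M := (hA.pin.T s hs).1
  have hMn := hA.okc.chain.nice M hA.hM
  rcases amcut_comp hA hlast hA.hM (amcut_not_sub hA.hw1) h2 h2' with h3 | h3 | h3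
  · exact key (h3 ▸ hsM)
  · exact key (hn2.subset_of_mem hMn.count h3 hsM)
  · have hw2 := amcut_mem hA hlast h2 h2'
    have h2t := hA.B N₂ h2 h3 hw2.1 hw2.2
    by_cases h4 : N₂ ⊆ Set.Iio s.1
    · have h5 : N₁ ⊆ N₂ := hn2.subset_of_mem hn1.count h
      rw [Set.inter_eq_left.2 (h5.trans h4), Set.inter_eq_left.2 h4]
      exact h
    · exact key (hA.okt.mem_of_block hs h2t h4
        fun r hr hsr => absurd (hmax r hr) (not_le.2 hsr)).1

theorem ok_cut {c : Pre} {M : Set O} {w : O × O × O} {t : Pre} {k : O} (hA : Am K c M w t k)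
    (hlast : ∀ s ∈ c.T, s.1 ≤ w.1) {s : O × O × O} (hs : s ∈ t.T) (hws : w.1 < s.1) (hmax : ∀ s' ∈ t.T, s'.1 ≤ s.1) :
    K.Ok (c.cut w.1 s.1) := by
  classical
  have htr := amcut_tr hA hs hws
  have hgV := hA.okc.res_mem hA.hw
  have hw22 := (hA.okc.chain.tr w hA.hw).2
  have hwx : w.2.1 < s.1 := hA.okt.chain.lt _ hA.wt s hs hws
  rw [amcut_eq hA hlast hws]
  refine ok_top hgV (hA.okc.good w hA.hw) hw22 ?_ ?_ ?_
  · intro h0
    obtain ⟨h, hh⟩ := hA.okc.chain.bot (Or.inr ⟨M, hA.hM⟩)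
    exact ⟨h, mem_res_T.2 ⟨hh, h0⟩⟩
  · intro N hN hNw
    obtain ⟨N', hN', rfl⟩ := Finset.mem_image.1 hN
    have h1 : ¬ N' ⊆ Set.Iio w.1 := fun h => hNw (Set.inter_subset_left.trans h)
    obtain ⟨h2, h3⟩ := amcut_mem hA hlast hN' h1
    have htop := hA.okc.topN hA.hw hN' h2 h3
    refine ⟨htop.nice.inter htr, ⟨h2, hws⟩, ⟨h3, hwx⟩, fun h0 => ?_, ?_⟩
    · have h4 := htop.cap h0
      have h5 : N' ∩ Set.Iio s.1 ∩ Set.Iio w.1 = N' ∩ Set.Iio w.1 := by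
        ext ξ
        simp only [Set.mem_inter_iff, Set.mem_Iio]
        exact ⟨fun h => ⟨h.1.1, h.2⟩, fun h => ⟨⟨h.1, h.2.trans hws⟩, h.2⟩⟩
      rw [h5]
      exact h4
    · exact (gen_inter hws htr ⟨hgV, hw22⟩).2 htop.gen
  · intro N hN N' hN' hNw hNw'
    obtain ⟨N₁, hN₁, rfl⟩ := Finset.mem_image.1 hN
    obtain ⟨N₂, hN₂, rfl⟩ := Finset.mem_image.1 hN'
    have h1 : ¬ N₁ ⊆ Set.Iio w.1 := fun h => hNw (Set.inter_subset_left.trans h)
    have h2 : ¬ N₂ ⊆ Set.Iio w.1 := fun h => hNw' (Set.inter_subset_left.trans h)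
    rcases amcut_comp hA hlast hN₁ h1 hN₂ h2 with h3 | h3 | h3
    · exact Or.inl (by rw [h3])
    · exact Or.inr (Or.inl (amcut_aux hA hlast hs hws hmax hN₁ hN₂ h2 h3))
    · exact Or.inr (Or.inr (amcut_aux hA hlast hs hws hmax hN₂ hN₁ h1 h3))

theorem below_cut {c : Pre} {M : Set O} {w : O × O × O} {t : Pre} {k : O} (hA : Am K c M w t k)
    (hlast : ∀ s ∈ c.T, s.1 ≤ w.1) {s : O × O × O} (hs : s ∈ t.T) (hws : w.1 < s.1) :
    Below s.1 (c.cut w.1 s.1) := by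
  have hwx : w.2.1 < s.1 := hA.okt.chain.lt _ hA.wt s hs hws
  refine ⟨fun r hr => ?_, fun N hN => ?_, fun v hv => hA.okc.chain.u_lt v hv⟩
  · have hr' : r ∈ c.T := hr
    have h1 := hlast r hr'
    refine ⟨h1.trans_lt hws, ?_, (hA.okc.chain.tr r hr').2⟩
    rcases h1.lt_or_eq with h | h
    · exact (hA.okc.chain.lt r hr' w hA.hw h).trans hws
    · rw [hA.okc.chain.eq r hr' w hA.hw h]
      exact hwx
  · rcases mem_cut_C.1 hN with ⟨h1, h2⟩ | ⟨N', h1, h2, rfl⟩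
    · exact ⟨(hA.okc.chain.nice N h1).count, h2.trans (Set.Iio_subset_Iio hws.le)⟩
    · exact ⟨(hA.okc.chain.nice N' h1).count.mono Set.inter_subset_left, Set.inter_subset_right⟩

end Code

end Pool.Agent.Lib.MP_8f49b0_lc.MM
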