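import Pool.Agent.Lib.MP_8f49b0_lc.MM.I.AmCut

/-! # Amalgamation, cutting off at the last transitive node `s` of `t`, continued (module I-AMCUT2)

`am_cut`: `max`: `w` is the last transitive node of `c`; `pin`: `PIn.inter`, `PIn.res`; `B`: let `N ∈ (c.cut w.1 s.1).C` with `K.cn N ∈ M ∩ Set.Iio s.1`, `w.1 ∈ N`. Then `N = N' ∩ Set.Iio s.1` with `N' ∈ c.C` (as `w.1 ∈ N`), and `comp` for `N'`, `M`:
`K.cn N' ∈ M`: then `N' ∈ t.C` (`hA.B`), and `N' ∩ Set.Iio s.1 ∈ t.C` (`cap_all`); `N' = M` or `K.cn M ∈ N'`: then `M ∩ Set.Iio s.1 ⊆ N`, so `K.cn N ∈ N`, which contradicts `K.cn_lt`.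
`le`: `(c.cut w.1 s.1).res w.1 = c.res w.1`. -/

namespace Pool.Agent.Lib.MP_8f49b0_lc.MM

namespace Code

variable {K : Code}

theorem am_cut {c : Pre} {M : Set O} {w : O × O × O} {t : Pre} {k : O} (hA : Am K c M w t k)
    (hlast : ∀ s ∈ c.T, s.1 ≤ w.1) {s : O × O × O} (hs : s ∈ t.T) (hws : w.1 < s.1) (hmax : ∀ s' ∈ t.T, s'.1 ≤ s.1) :
    Am K (c.cut w.1 s.1) (M ∩ Set.Iio s.1) w (t.res s.1) k := by
  classical
  have htr := amcut_tr hA hs hws
  have hwx : w.2.1 < s.1 := hA.okt.chain.lt _ hA.wt s hs hws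
  have hwM : ¬ M ⊆ Set.Iio w.1 := amcut_not_sub hA.hw1
  have hMn := hA.okc.chain.nice M hA.hM
  have htV := hA.okt.res_mem hs
  refine ⟨ok_cut hA hlast hs hws hmax, ?_, hA.hw, ⟨hA.hw1, hws⟩, ⟨hA.hw2, hwx⟩,
    fun r hr _ _ => hlast r hr, hA.okt.res s.1, ?_, ?_, ?_, ?_⟩
  · exact mem_cut_C.2 (Or.inr ⟨M, hA.hM, hwM, rfl⟩)
  · exact (hA.pin.res s.1).inter htr (mem_V.1 htV).1
  · exact mem_res_T.2 ⟨hA.wt, hws⟩
  · intro N hN hNM hwN hwN2
    rcases mem_cut_C.1 hN with ⟨h1, h2⟩ | ⟨N', h1, h2, h3⟩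
    · exact absurd h2 (amcut_not_sub hwN)
    · have hN' := hA.okc.chain.nice N' h1
      have hsub : M ⊆ N' → False := by
        intro h4
        have hNc : N.Countable := by
          rw [h3]
          exact hN'.count.mono Set.inter_subset_left
        have h5 : K.cn N ∈ N := by
          have h6 : K.cn N ∈ N' ∩ Set.Iio s.1 := ⟨h4 hNM.1, hNM.2⟩
          rwa [← h3] at h6
        exact cn_not_mem hNc h5
      rcases amcut_comp hA hlast hA.hM hwM h1 h2 with h4 | h4 | h4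
      · exact absurd (h4 ▸ le_rfl) hsub
      · exact absurd (hN'.subset_of_mem hMn.count h4) hsub
      · have hw2 := amcut_mem hA hlast h1 h2
        have h5 := hA.B N' h1 h4 hw2.1 hw2.2
        have h6 := hA.okt.chain.cap_all h5 hs htr.pos
        rw [← h3] at h6
        refine mem_res_C.2 ⟨h6, ?_⟩
        rw [h3]
        exact Set.inter_subset_right
  · have h1 : (c.cut w.1 s.1).res w.1 = c.res w.1 := by
      rw [amcut_eq hA hlast hws]
      exact top_res _ (hA.okc.res_mem hA.hw)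
    rw [h1, res_res t hws.le]
    exact hA.le

theorem cnt_res {t : Pre} {a : O} {s : O × O × O} (hs : s ∈ t.T) (hws : a < s.1) (h : K.Ok t)
    (hmax : ∀ s' ∈ t.T, s'.1 ≤ s.1) : cnt (t.res s.1) a + 1 = cnt t a := by
  classical
  have e : (t.res s.1).T.filter (fun r => a < r.1) = (t.T.filter (fun r => a < r.1)).erase s := by
    ext r
    rw [Finset.mem_filter, mem_res_T, Finset.mem_erase, Finset.mem_filter]
    constructor
    · rintro ⟨⟨h1, h2⟩, h3⟩
      exact ⟨fun h => absurd h2 (h ▸ lt_irrefl _), h1, h3⟩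
    · rintro ⟨h1, h2, h3⟩
      refine ⟨⟨h2, (hmax r h2).lt_of_ne fun h4 => h1 (h.chain.eq r h2 s hs h4)⟩, h3⟩
  have hmem : s ∈ t.T.filter (fun r => a < r.1) := Finset.mem_filter.2 ⟨hs, hws⟩
  have h2 := Finset.card_erase_add_one hmem
  unfold cnt
  rw [← h2]
  congr 1
  convert congrArg Finset.card e

end Code

end Pool.Agent.Lib.MP_8f49b0_lc.MM
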