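import Pool.Agent.Lib.MP_8f49b0_lc.MM.I.Glue
import Pool.Agent.Lib.MP_8f49b0_lc.MM.I.OkTop

/-! # Amalgamation, (3.5) of the paper: definitions -/

namespace Pool.Agent.Lib.MP_8f49b0_lc.MM

namespace Code

/-- the situation of the amalgamation lemma: `M` is a countable node of `c`, `w` is the largest transitive node of `c` in `M`, and `t`
is a condition in `M` with the node `w` (with the working part `k`) which contains the nodes of `c` in `M` containing `w` -/
structure Am (K : Code) (c : Pre) (M : Set O) (w : O × O × O) (t : Pre) (k : O) : Prop where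
  okc : K.Ok c
  hM : M ∈ c.C
  hw : w ∈ c.T
  hw1 : w.1 ∈ M
  hw2 : w.2.1 ∈ M
  max : ∀ s ∈ c.T, s.1 ∈ M → s.2.1 ∈ M → s.1 ≤ w.1
  okt : K.Ok t
  pin : K.PIn M t
  wt : (w.1, w.2.1, k) ∈ t.T
  B : ∀ N ∈ c.C, K.cn N ∈ M → w.1 ∈ N → w.2.1 ∈ N → N ∈ t.C
  le : K.leR w.2.1 (c.res w.1, w.2.2) (t.res w.1, k)

open Classical in
/-- the condition `c` with the countable nodes which are not below `a` cut off at `α` -/
noncomputable def _root_.Pool.Agent.Lib.MP_8f49b0_lc.MM.Pre.cut (c : Pre) (a α : O) : Pre where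
  T := c.T
  C := c.C.filter (fun N => N ⊆ Set.Iio a) ∪ (c.C.filter (fun N => ¬ N ⊆ Set.Iio a)).image (fun N => N ∩ Set.Iio α)
  u := c.u

variable {K : Code}

theorem mem_cut_C {c : Pre} {a α : O} {N : Set O} :
    N ∈ (c.cut a α).C ↔ (N ∈ c.C ∧ N ⊆ Set.Iio a) ∨ ∃ N' ∈ c.C, ¬ N' ⊆ Set.Iio a ∧ N = N' ∩ Set.Iio α := by
  unfold Pre.cut
  simp only [Finset.mem_union, Finset.mem_filter, Finset.mem_image]
  constructor
  · rintro (h | ⟨N', ⟨h1, h2⟩, rfl⟩)
    · exact Or.inl h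
    · exact Or.inr ⟨N', h1, h2, rfl⟩
  · rintro (h | ⟨N', h1, h2, rfl⟩)
    · exact Or.inl h
    · exact Or.inr ⟨N', ⟨h1, h2⟩, rfl⟩

/-- the number of transitive nodes of `t` above `a` -/
noncomputable def cnt (t : Pre) (a : O) : ℕ := (t.T.filter (fun s => a < s.1)).card

end Code

end Pool.Agent.Lib.MP_8f49b0_lc.MM
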