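import Pool.Agent.Lib.MP_8f49b0_lc.MM.I.AmDefs

/-! # Amalgamation, putting the last transitive node `s` of `t` on top (module I-AMSTEP)

`g` extends `c.cut w.1 s.1` and `t.res s.1` (and is below `s.1`). The nodes `N ∈ c.C` with `N = M` or `K.cn M ∈ N` contain `s.1`, `s.2.1`, `s.2.2` (`M ⊆ N`), and `N ∩ Set.Iio s.1 ∈ g.C`. They can be listed
increasingly (`comp`; finitely many, `K.cn N ∈ N'` implies `K.cn N < K.cn N'`: sort by `K.cn`); by `Good.proper` for `s` there is `a ≤ (g, s.2.2)` generic for all of them. `c' = a.1.top (s.1, s.2.1, a.2) (c.C ∪ t.C)`: a node in `c.C` which is not below `s.1`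
is one of the above, or `K.cn N ∈ M` and then `N ∈ t.C`. -/

namespace Pool.Agent.Lib.MP_8f49b0_lc.MM

namespace Code

variable {K : Code}

open Classical in
/-- a finite set of pairwise comparable nodes can be listed increasingly -/
theorem amstep_list (K : Code) (L : Finset (Set O)) (hc : ∀ N ∈ L, N.Countable)
    (hcomp : ∀ N ∈ L, ∀ N' ∈ L, N = N' ∨ K.cn N ∈ N' ∨ K.cn N' ∈ N) :
    ∃ l : List (Set O), l.Pairwise (fun N N' => K.cn N ∈ N') ∧ ∀ N, N ∈ l ↔ N ∈ L := by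
  let r : Set O → Set O → Prop := fun N N' => K.cn N ≤ K.cn N'
  have : Std.Total r := ⟨fun a b => le_total _ _⟩
  have : IsTrans (Set O) r := ⟨fun a b c => le_trans⟩
  refine ⟨L.toList.insertionSort r, ?_, fun N => ?_⟩
  · have h1 : (L.toList.insertionSort r).Pairwise r := List.pairwise_insertionSort r _
    have h2 : (L.toList.insertionSort r).Nodup :=
      (List.perm_insertionSort r L.toList).nodup_iff.2 L.nodup_toList
    have h3 := h1.and h2
    refine h3.imp_of_mem ?_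
    rintro N N' hN hN' ⟨h4, h5⟩
    rw [List.mem_insertionSort, Finset.mem_toList] at hN hN'
    rcases hcomp N hN N' hN' with h | h | h
    · exact absurd h h5
    · exact h
    · exact absurd (K.cn_lt N (hc N hN) _ h) (not_lt.2 h4)
  · rw [List.mem_insertionSort, Finset.mem_toList]

theorem am_step {c : Pre} {M : Set O} {w : O × O × O} {t : Pre} {k : O} (hA : Am K c M w t k)
    (hlast : ∀ s ∈ c.T, s.1 ≤ w.1) {s : O × O × O} (hs : s ∈ t.T) (hws : w.1 < s.1) (hmax : ∀ s' ∈ t.T, s'.1 ≤ s.1)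
    {g : Pre} (hg : g ∈ K.V s.1) (h1 : K.le g (c.cut w.1 s.1)) (h2 : K.le g (t.res s.1)) :
    ∃ c', K.ex c' c ∧ K.le c' t ∧ ∀ γ, Below γ c → Below γ t → Below γ c' := by
  classical
  have h0s : 0 < s.1 := pos_of_gt hws
  have hMn := hA.okc.chain.nice M hA.hM
  have hgood := hA.okt.good s hs
  have hs22 := (hA.okt.chain.tr s hs).2
  have htV := hA.okt.res_mem hs
  obtain ⟨hsM1, hsM2, hsM3⟩ := hA.pin.T s hs
  have hwM : ¬ M ⊆ Set.Iio w.1 := fun h => lt_irrefl w.1 (h hA.hw1)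
  -- membership and comparability for the nodes of `c` above `w`
  have cmem : ∀ N ∈ c.C, ¬ N ⊆ Set.Iio w.1 → w.1 ∈ N ∧ w.2.1 ∈ N := fun N hN h =>
    hA.okc.mem_of_block hA.hw hN h fun s hs hws => absurd (hlast s hs) (not_le.2 hws)
  have ccomp : ∀ N ∈ c.C, ∀ N' ∈ c.C, ¬ N ⊆ Set.Iio w.1 → ¬ N' ⊆ Set.Iio w.1 →
      N = N' ∨ K.cn N ∈ N' ∨ K.cn N' ∈ N := fun N hN N' hN' h h' =>
    hA.okc.comp_of_block hA.hw hN hN' h (fun s hs hws => absurd (hlast s hs) (not_le.2 hws))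
      h' (fun s hs hws => absurd (hlast s hs) (not_le.2 hws))
  have tmem : ∀ N ∈ t.C, ¬ N ⊆ Set.Iio s.1 → s.1 ∈ N ∧ s.2.1 ∈ N := fun N hN h =>
    hA.okt.mem_of_block hs hN h fun r hr hsr => absurd (hmax r hr) (not_le.2 hsr)
  have tcomp : ∀ N ∈ t.C, ∀ N' ∈ t.C, ¬ N ⊆ Set.Iio s.1 → ¬ N' ⊆ Set.Iio s.1 →
      N = N' ∨ K.cn N ∈ N' ∨ K.cn N' ∈ N := fun N hN N' hN' h h' =>
    hA.okt.comp_of_block hs hN hN' h (fun r hr hsr => absurd (hmax r hr) (not_le.2 hsr))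
      h' (fun r hr hsr => absurd (hmax r hr) (not_le.2 hsr))
  have sub_ws : ∀ N : Set O, ¬ N ⊆ Set.Iio s.1 → ¬ N ⊆ Set.Iio w.1 := fun N h h' =>
    h (h'.trans (Set.Iio_subset_Iio hws.le))
  -- the nodes which contain `M`
  let L : Finset (Set O) := c.C.filter (fun N => N = M ∨ K.cn M ∈ N)
  have hLsub : ∀ N ∈ L, M ⊆ N := by
    intro N hN
    obtain ⟨h3, h4⟩ := Finset.mem_filter.1 hN
    rcases h4 with h4 | h4
    · exact h4 ▸ le_rfl
    · exact (hA.okc.chain.nice N h3).subset_of_mem hMn.count h4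
  have hLc : ∀ N ∈ L, N ∈ c.C := fun N hN => (Finset.mem_filter.1 hN).1
  have hLw : ∀ N ∈ L, ¬ N ⊆ Set.Iio w.1 := fun N hN h => hwM ((hLsub N hN).trans h)
  obtain ⟨l, hl1, hl2⟩ := amstep_list K L (fun N hN => (hA.okc.chain.nice N (hLc N hN)).count)
    (fun N hN N' hN' => ccomp N (hLc N hN) N' (hLc N' hN') (hLw N hN) (hLw N' hN'))
  obtain ⟨a, haV, haR, haG⟩ := hgood.proper l hl1
    (fun N hN => by
      have hN' := (hl2 N).1 hN
      exact ⟨hA.okc.chain.nice N (hLc N hN'), hLsub N hN' hsM1, hLsub N hN' hsM2⟩)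
    g hg
    (fun _ N hN => by
      have hN' := (hl2 N).1 hN
      exact h1.C (mem_cut_C.2 (Or.inr ⟨N, hLc N hN', hLw N hN', rfl⟩)))
    s.2.2 hs22 (fun N hN => hLsub N ((hl2 N).1 hN) hsM3)
  have hgok := (mem_V.1 hg).2
  have haok := (mem_V.1 haV.1).2
  -- comparison of `g` and `a.1` with `c` and `t`
  have hgc : K.le g (c.res s.1) := by
    refine ⟨h1.u, fun N hN => ?_, fun r hr => ?_⟩
    · obtain ⟨h3, h4⟩ := mem_res_C.1 hN
      refine h1.C (mem_cut_C.2 ?_)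
      by_cases h5 : N ⊆ Set.Iio w.1
      · exact Or.inl ⟨h3, h5⟩
      · exact Or.inr ⟨N, h3, h5, (Set.inter_eq_left.2 h4).symm⟩
    · exact h1.T r (mem_res_T.1 hr).1
  have hac : K.le a.1 (c.res s.1) :=
    le_trans_of_ok haok hgok (hA.okc.res s.1) haR.le hgc
  have hat : K.le a.1 (t.res s.1) :=
    le_trans_of_ok haok hgok (hA.okt.res s.1) haR.le h2
  have hatR : K.leR s.2.1 (a.1, a.2) (t.res s.1, s.2.2) := by
    refine leR_trans hgood haV (b := (g, s.2.2)) ⟨hg, hs22⟩ ⟨htV, hs22⟩ haR ?_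
    exact leR_fst hgood hg h2 hs22
  -- `N ∈ c.C` above `s.1` contains `M` or is in `t.C`
  have hcase : ∀ N ∈ c.C, ¬ N ⊆ Set.Iio s.1 → N ∈ L ∨ N ∈ t.C := by
    intro N hN h
    have h3 := sub_ws N h
    have h4 := cmem N hN h3
    rcases ccomp M hA.hM N hN hwM h3 with h5 | h5 | h5
    · exact Or.inl (Finset.mem_filter.2 ⟨hN, Or.inl h5.symm⟩)
    · exact Or.inl (Finset.mem_filter.2 ⟨hN, Or.inr h5⟩)
    · exact Or.inr (hA.B N hN h5 h4.1 h4.2)
  have hLtop : ∀ N ∈ L, TopN K a.1 (s.1, s.2.1, a.2) N := by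
    intro N hN
    refine ⟨hA.okc.chain.nice N (hLc N hN), hLsub N hN hsM1, hLsub N hN hsM2, fun _ => ?_, ?_⟩
    · exact haR.le.C (h1.C (mem_cut_C.2 (Or.inr ⟨N, hLc N hN, hLw N hN, rfl⟩)))
    · exact haG N ((hl2 N).2 hN)
  have hTtop : ∀ N ∈ t.C, ¬ N ⊆ Set.Iio s.1 → TopN K a.1 (s.1, s.2.1, a.2) N := by
    intro N hN h
    obtain ⟨h3, h4⟩ := tmem N hN h
    exact (hA.okt.topN hs hN h3 h4).anti hgood ⟨htV, hs22⟩ haV hatR
  have hLT : ∀ N ∈ L, ∀ N' ∈ t.C, K.cn N' ∈ N := fun N hN N' hN' => hLsub N hN (hA.pin.C N' hN').2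
  have hok : K.Ok (a.1.top (s.1, s.2.1, a.2) (c.C ∪ t.C)) := by
    refine ok_top haV.1 hgood haV.2 (fun _ => ?_) (fun N hN h => ?_) (fun N hN N' hN' h h' => ?_)
    · obtain ⟨h, hh⟩ := hA.okt.chain.bot (Or.inl ⟨s, hs⟩)
      obtain ⟨h', hh', -⟩ := hat.T _ (mem_res_T.2 ⟨hh, h0s⟩)
      exact ⟨h', hh'⟩
    · rcases Finset.mem_union.1 hN with h3 | h3
      · rcases hcase N h3 h with h4 | h4
        · exact hLtop N h4
        · exact hTtop N h4 h
      · exact hTtop N h3 h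
    · have hN2 : N ∈ L ∨ N ∈ t.C := by
        rcases Finset.mem_union.1 hN with h3 | h3
        · exact hcase N h3 h
        · exact Or.inr h3
      have hN2' : N' ∈ L ∨ N' ∈ t.C := by
        rcases Finset.mem_union.1 hN' with h3 | h3
        · exact hcase N' h3 h'
        · exact Or.inr h3
      rcases hN2 with h3 | h3
      · rcases hN2' with h4 | h4
        · exact ccomp N (hLc N h3) N' (hLc N' h4) (hLw N h3) (hLw N' h4)
        · exact Or.inr (Or.inr (hLT N h3 N' h4))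
      · rcases hN2' with h4 | h4
        · exact Or.inr (Or.inl (hLT N' h4 N h3))
        · exact tcomp N h3 N' h4 h h'
  refine ⟨a.1.top (s.1, s.2.1, a.2) (c.C ∪ t.C), ⟨hok, ?_⟩, ?_, fun γ hγc hγt => ?_⟩
  · refine top_le haV.1 hac (fun r hr => Or.inl ((hlast r hr).trans_lt hws)) (fun N hN _ => ?_)
    exact Finset.mem_union_left _ hN
  · refine top_le haV.1 hat (fun r hr => ?_) (fun N hN _ => Finset.mem_union_right _ hN)
    rcases (hmax r hr).lt_or_eq with h | h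
    · exact Or.inl h
    · have h3 := hA.okt.chain.eq r hr s hs h
      subst h3
      exact Or.inr ⟨rfl, rfl, haR.L⟩
  · refine below_top haV.1 (hγt.T s hs).1 (hγt.T s hs).2.1 haV.2 (fun N hN _ => ?_)
    rcases Finset.mem_union.1 hN with h3 | h3
    · exact hγc.C N h3
    · exact hγt.C N h3

end Code

end Pool.Agent.Lib.MP_8f49b0_lc.MM
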