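import Pool.Agent.Lib.MP_8f49b0_lc.MM.I.AmBase
import Pool.Agent.Lib.MP_8f49b0_lc.MM.I.AmCut2
import Pool.Agent.Lib.MP_8f49b0_lc.MM.I.AmStep

/-! # Amalgamation (module I-AMALG), (3.5) of the paper

`am_last`: induction on `cnt t w.1`: `am_base`, or `am_cut` + induction hypothesis + `am_step`.
`amalg`: if `w` is not the last transitive node of `c`, let `w'` be the next one; `M ⊆ Set.Iio w'.1` (`Chain.subset_of_max`), so `t` is below `w'.1`; apply `am_last` to `c.res w'.1` and glue the result into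
`c` at `w'` (`exists_glue_fst`). -/

namespace Pool.Agent.Lib.MP_8f49b0_lc.MM

namespace Code

variable {K : Code}

theorem am_last (n : ℕ) : ∀ {c : Pre} {M : Set O} {w : O × O × O} {t : Pre} {k : O}, Am K c M w t k →
    (∀ s ∈ c.T, s.1 ≤ w.1) → cnt t w.1 = n →
    ∃ c', K.ex c' c ∧ K.le c' t ∧ ∀ γ, Below γ c → Below γ t → Below γ c' := by
  classical
  induction n with
  | zero =>
    intro c M w t k hA hlast hn
    refine am_base hA hlast fun s hs => ?_
    by_contra h
    have h1 : s ∈ t.T.filter (fun s => w.1 < s.1) := Finset.mem_filter.2 ⟨hs, not_le.1 h⟩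
    have h2 : (t.T.filter (fun s => w.1 < s.1)).card = 0 := hn
    rw [Finset.card_eq_zero] at h2
    rw [h2] at h1
    exact absurd h1 (Finset.notMem_empty s)
  | succ n ih =>
    intro c M w t k hA hlast hn
    have h1 : (t.T.filter (fun s => w.1 < s.1)).Nonempty := by
      rw [← Finset.card_pos]
      have h2 : (t.T.filter (fun s => w.1 < s.1)).card = n + 1 := hn
      omega
    obtain ⟨s0, hs0⟩ := h1
    rw [Finset.mem_filter] at hs0
    obtain ⟨s, hs, hmax⟩ := Finset.exists_max_image t.T (fun s => s.1) ⟨s0, hs0.1⟩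
    have hws : w.1 < s.1 := hs0.2.trans_le (hmax s0 hs0.1)
    have hcut := am_cut hA hlast hs hws hmax
    have hcnt : cnt (t.res s.1) w.1 = n := by
      have h3 := cnt_res (a := w.1) hs hws hA.okt hmax
      omega
    obtain ⟨g, hg1, hg2, hg3⟩ := ih hcut hlast hcnt
    have hgV : g ∈ K.V s.1 :=
      mem_V.2 ⟨hg3 _ (below_cut hA hlast hs hws) (mem_V.1 (hA.okt.res_mem hs)).1, hg1.1⟩
    exact am_step hA hlast hs hws hmax hgV hg1.2 hg2

theorem amalg {c : Pre} {M : Set O} {w : O × O × O} {t : Pre} {k : O} (hA : Am K c M w t k) :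
    ∃ c', K.ex c' c ∧ K.le c' t ∧ ∀ γ, Below γ c → Below γ t → Below γ c' := by
  classical
  by_cases hlast : ∀ s ∈ c.T, s.1 ≤ w.1
  · exact am_last _ hA hlast rfl
  · push Not at hlast
    obtain ⟨s0, hs0, hlt0⟩ := hlast
    have hne : (c.T.filter (fun s => w.1 < s.1)).Nonempty := ⟨s0, Finset.mem_filter.2 ⟨hs0, hlt0⟩⟩
    obtain ⟨s, hs, hmin⟩ := Finset.exists_min_image _ (fun s => s.1) hne
    rw [Finset.mem_filter] at hs
    obtain ⟨hs, hws⟩ := hs
    have hch := hA.okc.chain
    have hMs : M ⊆ Set.Iio s.1 := hch.subset_of_max hA.hM hA.hw hA.max hs hws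
    have htr : K.Tr s.1 := by
      rcases (hch.tr s hs).1 with h3 | h3
      · exact h3
      · have h4 : 0 < s.1 := zero_le.trans_lt hws
        rw [h3.1] at h4
        exact absurd h4 (lt_irrefl _)
    have htB : Below s.1 t :=
      hA.pin.below htr hMs (fun r hr => (hA.okt.chain.tr r hr).2) hA.okt.chain.u_lt
    have hcB := (mem_V.1 (hA.okc.res_mem hs)).1
    have hA' : Am K (c.res s.1) M w t k :=
      { okc := hA.okc.res s.1
        hM := mem_res_C.2 ⟨hA.hM, hMs⟩
        hw := mem_res_T.2 ⟨hA.hw, hws⟩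
        hw1 := hA.hw1
        hw2 := hA.hw2
        max := fun r hr h1 h2 => hA.max r (mem_res_T.1 hr).1 h1 h2
        okt := hA.okt
        pin := hA.pin
        wt := hA.wt
        B := fun N hN h1 h2 h3 => hA.B N (mem_res_C.1 hN).1 h1 h2 h3
        le := by
          rw [res_res c hws.le]
          exact hA.le }
    have hlast' : ∀ r ∈ (c.res s.1).T, r.1 ≤ w.1 := by
      intro r hr
      rw [mem_res_T] at hr
      by_contra h
      exact absurd (hmin r (Finset.mem_filter.2 ⟨hr.1, not_le.1 h⟩)) (not_le.2 hr.2)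
    obtain ⟨g, hg1, hg2, hg3⟩ := am_last _ hA' hlast' rfl
    have hgV : g ∈ K.V s.1 := mem_V.2 ⟨hg3 _ hcB htB, hg1.1⟩
    obtain ⟨c', h1, -, -, h4, h5⟩ := exists_glue_fst hA.okc hs hgV hg1.2
    exact ⟨c', h1, le_trans_of_ok h1.1 hg1.1 hA.okt h4 hg2, fun γ hγ _ => h5 γ hγ⟩

end Code

end Pool.Agent.Lib.MP_8f49b0_lc.MM
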