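import Pool.Agent.Lib.MP_8f49b0_lc.MM.S.Nice

/-! # Basic properties of the forcing notion (module I-BASIC)

`mem_V` by unfolding `WellFounded.fix_eq`: `K.OkW W c` only depends on `W β` for the heights `β < α` of `c`. -/

namespace Pool.Agent.Lib.MP_8f49b0_lc.MM

namespace Code

variable {K : Code}

/-! ### restrictions -/

theorem mem_res_T {c : Pre} {α : O} {t : O × O × O} : t ∈ (c.res α).T ↔ t ∈ c.T ∧ t.1 < α := by
  unfold Pre.res
  simp

theorem mem_res_C {c : Pre} {α : O} {N : Set O} : N ∈ (c.res α).C ↔ N ∈ c.C ∧ N ⊆ Set.Iio α := by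
  unfold Pre.res
  simp

theorem res_u (c : Pre) (α : O) : (c.res α).u = c.u := rfl

theorem res_res (c : Pre) {α β : O} (h : β ≤ α) : (c.res α).res β = c.res β := by
  apply Pre.ext
  · ext t
    rw [mem_res_T, mem_res_T, mem_res_T]
    constructor
    · rintro ⟨⟨h1, -⟩, h2⟩
      exact ⟨h1, h2⟩
    · rintro ⟨h1, h2⟩
      exact ⟨⟨h1, h2.trans_le h⟩, h2⟩
  · ext N
    rw [mem_res_C, mem_res_C, mem_res_C]
    constructor
    · rintro ⟨⟨h1, -⟩, h2⟩
      exact ⟨h1, h2⟩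
    · rintro ⟨h1, h2⟩
      exact ⟨⟨h1, h2.trans (Set.Iio_subset_Iio h)⟩, h2⟩
  · rfl

theorem res_res' (c : Pre) {α β : O} (h : α ≤ β) : (c.res α).res β = c.res α := by
  apply Pre.ext
  · ext t
    rw [mem_res_T, mem_res_T]
    constructor
    · rintro ⟨h1, -⟩
      exact h1
    · rintro ⟨h1, h2⟩
      exact ⟨⟨h1, h2⟩, h2.trans_le h⟩
  · ext N
    rw [mem_res_C, mem_res_C]
    constructor
    · rintro ⟨h1, -⟩
      exact h1
    · rintro ⟨h1, h2⟩
      exact ⟨⟨h1, h2⟩, h2.trans (Set.Iio_subset_Iio h)⟩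
  · rfl

/-- a condition below `α` is its restriction to `α` -/
theorem _root_.Pool.Agent.Lib.MP_8f49b0_lc.MM.Below.res_eq {c : Pre} {α : O} (h : Below α c) :
    c.res α = c := by
  apply Pre.ext
  · ext t
    rw [mem_res_T]
    exact ⟨fun h1 => h1.1, fun h1 => ⟨h1, (h.T t h1).1⟩⟩
  · ext N
    rw [mem_res_C]
    exact ⟨fun h1 => h1.1, fun h1 => ⟨h1, (h.C N h1).2⟩⟩
  · rfl

theorem _root_.Pool.Agent.Lib.MP_8f49b0_lc.MM.Below.mono {c : Pre} {α β : O} (h : Below α c)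
    (hαβ : α ≤ β) : Below β c :=
  ⟨fun t ht => ⟨(h.T t ht).1.trans_le hαβ, (h.T t ht).2.1.trans_le hαβ, (h.T t ht).2.2⟩,
    fun N hN => ⟨(h.C N hN).1, (h.C N hN).2.trans (Set.Iio_subset_Iio hαβ)⟩, h.u⟩

theorem _root_.Pool.Agent.Lib.MP_8f49b0_lc.MM.Below.res {c : Pre} {α : O} (h : Below α c) (β : O) :
    Below α (c.res β) :=
  ⟨fun t ht => h.T t (mem_res_T.1 ht).1, fun N hN => h.C N (mem_res_C.1 hN).1, h.u⟩

private theorem Basic_okW_congr {W W' : O → Set Pre} {c : Pre} (h : ∀ t ∈ c.T, W t.1 = W' t.1)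
    (hc : K.OkW W c) : K.OkW W' c := by
  refine ⟨hc.chain, fun t ht => ?_, fun t ht N hN h1 h2 => ?_⟩
  · rw [← h t ht]
    exact hc.good t ht
  · rw [← h t ht]
    exact hc.gen t ht N hN h1 h2

theorem mem_V {c : Pre} {α : O} : c ∈ K.V α ↔ Below α c ∧ K.Ok c := by
  classical
  have h1 : K.V α = {c | Below α c ∧ K.OkW (fun β => if β < α then K.V β else ∅) c} := by
    have h2 := WellFounded.fix_eq (C := fun _ => Set Pre) Ordinal.lt_wf
      (fun α V' => {c | Below α c ∧ K.OkW (fun β => if h : β < α then V' β h else ∅) c}) α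
    exact h2
  rw [h1]
  constructor
  · rintro ⟨h2, h3⟩
    refine ⟨h2, Basic_okW_congr (fun t ht => ?_) h3⟩
    exact if_pos (h2.T t ht).1
  · rintro ⟨h2, h3⟩
    refine ⟨h2, Basic_okW_congr (fun t ht => ?_) h3⟩
    exact (if_pos (h2.T t ht).1).symm

private theorem Basic_ok_of_mem_V0 {c : Pre} (h : c ∈ V0) : K.Ok c := by
  obtain ⟨hT, hC, h1, h2⟩ := h
  refine ⟨⟨?_, ?_, ?_, ?_, ?_, ?_, ?_, ?_, h1, h2⟩, ?_, ?_⟩
  · intro N hN
    rw [hC] at hN
    exact absurd hN (Finset.notMem_empty N)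
  · intro t ht
    rw [hT] at ht
    exact absurd ht (Finset.notMem_empty t)
  · intro t ht
    rw [hT] at ht
    exact absurd ht (Finset.notMem_empty t)
  · intro t ht
    rw [hT] at ht
    exact absurd ht (Finset.notMem_empty t)
  · intro h
    rw [hT, hC] at h
    rcases h with ⟨t, ht⟩ | ⟨N, hN⟩
    · exact absurd ht (Finset.notMem_empty t)
    · exact absurd hN (Finset.notMem_empty N)
  · intro N hN
    rw [hC] at hN
    exact absurd hN (Finset.notMem_empty N)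
  · intro N hN
    rw [hC] at hN
    exact absurd hN (Finset.notMem_empty N)
  · intro N hN
    rw [hC] at hN
    exact absurd hN (Finset.notMem_empty N)
  · intro t ht
    rw [hT] at ht
    exact absurd ht (Finset.notMem_empty t)
  · intro t ht
    rw [hT] at ht
    exact absurd ht (Finset.notMem_empty t)

theorem V_zero : K.V 0 = V0 := by
  ext c
  rw [mem_V]
  constructor
  · rintro ⟨h1, h2⟩
    refine ⟨?_, ?_, h2.chain.u_fun, h2.chain.u_lt⟩
    · refine Finset.eq_empty_of_forall_notMem fun t ht => ?_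
      exact absurd (h1.T t ht).1 not_lt_zero
    · refine Finset.eq_empty_of_forall_notMem fun N hN => ?_
      have h3 : (0 : O) < 0 := (h1.C N hN).2 (h2.chain.nice N hN).zero_mem
      exact absurd h3 not_lt_zero
  · intro h
    have hok : K.Ok c := Basic_ok_of_mem_V0 h
    obtain ⟨hT, hC, h1, h2⟩ := h
    refine ⟨⟨?_, ?_, h2⟩, hok⟩
    · intro t ht
      rw [hT] at ht
      exact absurd ht (Finset.notMem_empty t)
    · intro N hN
      rw [hC] at hN
      exact absurd hN (Finset.notMem_empty N)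

theorem V_mono {α β : O} (h : α ≤ β) : K.V α ⊆ K.V β := fun _ hc =>
  mem_V.2 ⟨(mem_V.1 hc).1.mono h, (mem_V.1 hc).2⟩

/-- every condition is bounded -/
theorem Ok.exists_below {c : Pre} (h : K.Ok c) (γ : O) : ∃ α, γ < α ∧ Below α c := by
  set N : Set O := {γ} ∪ ((⋃ t ∈ c.T, {t.1, t.2.1}) ∪ ⋃ M ∈ c.C, M) with hN
  have hNc : N.Countable := by
    refine (Set.countable_singleton γ).union (Set.Countable.union ?_ ?_)
    · exact Set.Countable.biUnion c.T.countable_toSet (fun t _ => (Set.toFinite _).countable)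
    · exact Set.Countable.biUnion c.C.countable_toSet (fun M hM => (h.chain.nice M hM).count)
  have hlt : ∀ ξ ∈ N, ξ < K.cn N := K.cn_lt N hNc
  refine ⟨K.cn N, hlt γ (Or.inl rfl), ⟨fun t ht => ⟨hlt _ ?_, hlt _ ?_, (h.chain.tr t ht).2⟩,
    fun M hM => ⟨(h.chain.nice M hM).count, ?_⟩, h.chain.u_lt⟩⟩
  · exact Or.inr (Or.inl (Set.mem_biUnion ht (Or.inl rfl)))
  · exact Or.inr (Or.inl (Set.mem_biUnion ht (Or.inr rfl)))
  · intro ξ hξ
    exact hlt ξ (Or.inr (Or.inr (Set.mem_biUnion hM hξ)))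

/-- all restrictions of conditions are conditions -/
theorem Ok.res {c : Pre} (h : K.Ok c) (α : O) : K.Ok (c.res α) := by
  have hch := h.chain
  refine ⟨⟨?_, ?_, ?_, ?_, ?_, ?_, ?_, ?_, hch.u_fun, hch.u_lt⟩, ?_, ?_⟩
  · intro N hN
    exact hch.nice N (mem_res_C.1 hN).1
  · intro t ht
    exact hch.tr t (mem_res_T.1 ht).1
  · intro t ht t' ht'
    exact hch.eq t (mem_res_T.1 ht).1 t' (mem_res_T.1 ht').1
  · intro t ht t' ht'
    exact hch.lt t (mem_res_T.1 ht).1 t' (mem_res_T.1 ht').1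
  · intro h1
    have h2 : 0 < α := by
      rcases h1 with ⟨t, ht⟩ | ⟨N, hN⟩
      · exact zero_le.trans_lt (mem_res_T.1 ht).2
      · exact (mem_res_C.1 hN).2 (hch.nice N (mem_res_C.1 hN).1).zero_mem
    have h3 : c.T.Nonempty ∨ c.C.Nonempty := by
      rcases h1 with ⟨t, ht⟩ | ⟨N, hN⟩
      · exact Or.inl ⟨t, (mem_res_T.1 ht).1⟩
      · exact Or.inr ⟨N, (mem_res_C.1 hN).1⟩
    obtain ⟨h', hh'⟩ := hch.bot h3
    exact ⟨h', mem_res_T.2 ⟨hh', h2⟩⟩
  · intro N hN t ht h1 h2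
    refine hch.base N (mem_res_C.1 hN).1 t (mem_res_T.1 ht).1 h1 fun t' ht' h3 => ?_
    by_cases h4 : t'.1 < α
    · exact h2 t' (mem_res_T.2 ⟨ht', h4⟩) h3
    · exact absurd ((mem_res_C.1 hN).2.trans (Set.Iio_subset_Iio (not_lt.1 h4))) h3
  · intro N hN t ht h0 h1 h2
    exact mem_res_C.2 ⟨hch.cap N (mem_res_C.1 hN).1 t (mem_res_T.1 ht).1 h0 h1 h2,
      Set.inter_subset_left.trans (mem_res_C.1 hN).2⟩
  · intro N hN N' hN' h1
    refine hch.comp N (mem_res_C.1 hN).1 N' (mem_res_C.1 hN').1 fun t ht => ?_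
    by_cases h4 : t.1 < α
    · exact h1 t (mem_res_T.2 ⟨ht, h4⟩)
    · have h5 := Set.Iio_subset_Iio (not_lt.1 h4)
      exact ⟨fun _ => (mem_res_C.1 hN').2.trans h5, fun _ => (mem_res_C.1 hN).2.trans h5⟩
  · intro t ht
    exact h.good t (mem_res_T.1 ht).1
  · intro t ht N hN h1 h2
    rw [res_res c (mem_res_T.1 ht).2.le]
    exact h.gen t (mem_res_T.1 ht).1 N (mem_res_C.1 hN).1 h1 h2

/-- the restriction of a condition to (the height of) one of its transitive nodes -/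
theorem Ok.res_mem {c : Pre} (h : K.Ok c) {t : O × O × O} (ht : t ∈ c.T) : c.res t.1 ∈ K.V t.1 := by
  refine mem_V.2 ⟨⟨fun t' ht' => ?_, fun N hN => ?_, h.chain.u_lt⟩, h.res t.1⟩
  · obtain ⟨h1, h2⟩ := mem_res_T.1 ht'
    exact ⟨h2, h.chain.lt t' h1 t ht h2, (h.chain.tr t' h1).2⟩
  · obtain ⟨h1, h2⟩ := mem_res_C.1 hN
    exact ⟨(h.chain.nice N h1).count, h2⟩

/-- the empty condition and the Cohen conditions -/
theorem ok_of_mem_V0 {c : Pre} (h : c ∈ V0) : K.Ok c := Basic_ok_of_mem_V0 h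

end Code

end Pool.Agent.Lib.MP_8f49b0_lc.MM
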