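import Pool.Agent.Lib.MP_8f49b0_lc.MM.I.Order

/-! # Closure under intersections (module I-CAP)

`cap_all`: induction on the number of the transitive nodes `t'` with `¬ N ⊆ Set.Iio t'.1`. If `N ⊆ Set.Iio t.1` there is nothing to do. Otherwise let `t'` be the
largest transitive node with `¬ N ⊆ Set.Iio t'.1` (so `t.1 ≤ t'.1`); by `base` it belongs to `N` and `N ∩ Set.Iio t'.1 ∈ c.C` by `cap`; and
`(N ∩ Set.Iio t'.1) ∩ Set.Iio t.1 = N ∩ Set.Iio t.1`. -/

namespace Pool.Agent.Lib.MP_8f49b0_lc.MM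

namespace Code

variable {K : Code}

private theorem Cap_top {c : Pre} (h : K.Chain c) {N : Set O} (hN : N ∈ c.C) {t : O × O × O} (ht : t ∈ c.T)
    (hNt : ¬ N ⊆ Set.Iio t.1) : ∃ t' ∈ c.T, t.1 ≤ t'.1 ∧ t'.1 ∈ N ∧ t'.2.1 ∈ N ∧ ¬ N ⊆ Set.Iio t'.1 := by
  classical
  have hne : (c.T.filter (fun s => ¬ N ⊆ Set.Iio s.1)).Nonempty := ⟨t, Finset.mem_filter.2 ⟨ht, hNt⟩⟩
  obtain ⟨t', ht', hmax⟩ := Finset.exists_max_image _ (fun s => s.1) hne
  rw [Finset.mem_filter] at ht'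
  obtain ⟨h1, h2⟩ := h.base N hN t' ht'.1 ht'.2
    (fun s hs hs' => hmax s (Finset.mem_filter.2 ⟨hs, hs'⟩))
  exact ⟨t', ht'.1, hmax t (Finset.mem_filter.2 ⟨ht, hNt⟩), h1, h2, ht'.2⟩

private theorem Cap_all {c : Pre} (h : K.Chain c) {t : O × O × O} (ht : t ∈ c.T) (h0 : 0 < t.1) :
    ∀ (n : ℕ) (N : Set O), N ∈ c.C → {s ∈ (c.T : Set (O × O × O)) | ¬ N ⊆ Set.Iio s.1}.ncard ≤ n →
      N ∩ Set.Iio t.1 ∈ c.C := by
  intro n
  induction n with
  | zero =>
    intro N hN hn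
    have hfin : {s ∈ (c.T : Set (O × O × O)) | ¬ N ⊆ Set.Iio s.1}.Finite :=
      c.T.finite_toSet.subset (Set.sep_subset _ _)
    rw [Nat.le_zero, Set.ncard_eq_zero hfin] at hn
    have h1 : N ⊆ Set.Iio t.1 := by
      by_contra hc
      have : t ∈ {s ∈ (c.T : Set (O × O × O)) | ¬ N ⊆ Set.Iio s.1} := ⟨ht, hc⟩
      rw [hn] at this
      exact this
    rw [Set.inter_eq_left.2 h1]
    exact hN
  | succ n ih =>
    intro N hN hn
    by_cases hNt : N ⊆ Set.Iio t.1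
    · rw [Set.inter_eq_left.2 hNt]
      exact hN
    · obtain ⟨t', ht', hle, h1, h2, h3⟩ := Cap_top h hN ht hNt
      have h4 := h.cap N hN t' ht' (h0.trans_le hle) h1 h2
      have hfin : {s ∈ (c.T : Set (O × O × O)) | ¬ N ⊆ Set.Iio s.1}.Finite :=
        c.T.finite_toSet.subset (Set.sep_subset _ _)
      have h5 : {s ∈ (c.T : Set (O × O × O)) | ¬ (N ∩ Set.Iio t'.1) ⊆ Set.Iio s.1}.ncard <
          {s ∈ (c.T : Set (O × O × O)) | ¬ N ⊆ Set.Iio s.1}.ncard := by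
        refine Set.ncard_lt_ncard ?_ hfin
        rw [Set.ssubset_iff_of_subset]
        · exact ⟨t', ⟨ht', h3⟩, fun h6 => h6.2 Set.inter_subset_right⟩
        · intro s hs
          exact ⟨hs.1, fun h6 => hs.2 (Set.inter_subset_left.trans h6)⟩
      have h6 := ih (N ∩ Set.Iio t'.1) h4 (by omega)
      have h7 : (N ∩ Set.Iio t'.1) ∩ Set.Iio t.1 = N ∩ Set.Iio t.1 := by
        rw [Set.inter_assoc, Set.inter_eq_right.2 (Set.Iio_subset_Iio hle)]
      rwa [h7] at h6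

theorem Chain.cap_all {c : Pre} (h : K.Chain c) {N : Set O} (hN : N ∈ c.C) {t : O × O × O} (ht : t ∈ c.T)
    (h0 : 0 < t.1) : N ∩ Set.Iio t.1 ∈ c.C :=
  Cap_all h ht h0 _ N hN le_rfl

/-- a countable node `M` is below every transitive node which is larger than the largest transitive node in `M` -/
theorem Chain.subset_of_max {c : Pre} (h : K.Chain c) {M : Set O} (hM : M ∈ c.C) {t : O × O × O} (ht : t ∈ c.T)
    (hmax : ∀ t' ∈ c.T, t'.1 ∈ M → t'.2.1 ∈ M → t'.1 ≤ t.1)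
    {t' : O × O × O} (ht' : t' ∈ c.T) (hlt : t.1 < t'.1) : M ⊆ Set.Iio t'.1 := by
  by_contra hc
  obtain ⟨s, hs, hle, h1, h2, -⟩ := Cap_top h hM ht' hc
  exact absurd (hmax s hs h1 h2) (not_le.2 (hlt.trans_le hle))

/-- two countable nodes which contain the transitive node `w` and have the same trace on `ω₁` have the same trace on (the height of) `w`:
if `w` is the last transitive node use `comp` and `Nice.lt_of_mem`; otherwise let `t` be the next one and use `cap_all` and `comp` for the traces on `t.1`. -/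
theorem Chain.inter_eq {c : Pre} (h : K.Chain c) {w : O × O × O} (hw : w ∈ c.T) {M N : Set O} (hM : M ∈ c.C)
    (hN : N ∈ c.C) (hwM : w.1 ∈ M) (hwN : w.1 ∈ N) {δ : O} (hδ : δ < w1) (h1 : ∀ ξ < w1, ξ ∈ M ↔ ξ < δ)
    (h2 : ∀ ξ < w1, ξ ∈ N ↔ ξ < δ) : M ∩ Set.Iio w.1 = N ∩ Set.Iio w.1 := by
  classical
  -- comparable nodes in the same block with the same trace on `ω₁` are equal
  have key : ∀ M' ∈ c.C, ∀ N' ∈ c.C, (∀ t ∈ c.T, M' ⊆ Set.Iio t.1 ↔ N' ⊆ Set.Iio t.1) →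
      (∀ ξ < w1, ξ ∈ M' ↔ ξ < δ) → (∀ ξ < w1, ξ ∈ N' ↔ ξ < δ) → M' = N' := by
    intro M' hM' N' hN' hb e1 e2
    rcases h.comp M' hM' N' hN' hb with h3 | h3 | h3
    · exact h3
    · exact absurd ((h.nice N' hN').lt_of_mem (h.nice M' hM') h3 hδ hδ e1 e2) (lt_irrefl _)
    · exact absurd ((h.nice M' hM').lt_of_mem (h.nice N' hN') h3 hδ hδ e2 e1) (lt_irrefl _)
  by_cases hlast : ∀ t ∈ c.T, t.1 ≤ w.1
  · have h3 : M = N := by
      refine key M hM N hN (fun t ht => ?_) h1 h2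
      constructor
      · intro h4
        exact absurd (h4 hwM : w.1 < t.1) (not_lt.2 (hlast t ht))
      · intro h4
        exact absurd (h4 hwN : w.1 < t.1) (not_lt.2 (hlast t ht))
    rw [h3]
  · push Not at hlast
    obtain ⟨t0, ht0, hlt0⟩ := hlast
    have hne : (c.T.filter (fun s => w.1 < s.1)).Nonempty := ⟨t0, Finset.mem_filter.2 ⟨ht0, hlt0⟩⟩
    obtain ⟨t, ht, hmin⟩ := Finset.exists_min_image _ (fun s => s.1) hne
    rw [Finset.mem_filter] at ht
    obtain ⟨htT, hwt⟩ := ht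
    have hpos : 0 < t.1 := zero_le.trans_lt hwt
    have htr : K.Tr t.1 := by
      rcases (h.tr t htT).1 with h3 | h3
      · exact h3
      · rw [h3.1] at hpos
        exact absurd hpos (lt_irrefl _)
    have h3 : M ∩ Set.Iio t.1 = N ∩ Set.Iio t.1 := by
      refine key _ (h.cap_all hM htT hpos) _ (h.cap_all hN htT hpos) (fun s hs => ?_) ?_ ?_
      · by_cases hsw : w.1 < s.1
        · have h4 : t.1 ≤ s.1 := hmin s (Finset.mem_filter.2 ⟨hs, hsw⟩)
          have h5 := Set.Iio_subset_Iio h4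
          exact ⟨fun _ => Set.inter_subset_right.trans h5, fun _ => Set.inter_subset_right.trans h5⟩
        · constructor
          · intro h4
            exact absurd (h4 ⟨hwM, hwt⟩ : w.1 < s.1) hsw
          · intro h4
            exact absurd (h4 ⟨hwN, hwt⟩ : w.1 < s.1) hsw
      · intro ξ hξ
        rw [← h1 ξ hξ]
        exact ⟨fun h4 => h4.1, fun h4 => ⟨h4, hξ.trans htr.w1⟩⟩
      · intro ξ hξ
        rw [← h2 ξ hξ]
        exact ⟨fun h4 => h4.1, fun h4 => ⟨h4, hξ.trans htr.w1⟩⟩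
    have h4 : ∀ P : Set O, (P ∩ Set.Iio t.1) ∩ Set.Iio w.1 = P ∩ Set.Iio w.1 := by
      intro P
      rw [Set.inter_assoc, Set.inter_eq_right.2 (Set.Iio_subset_Iio hwt.le)]
    rw [← h4 M, h3, h4 N]

end Code

end Pool.Agent.Lib.MP_8f49b0_lc.MM
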