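import Pool.Agent.Lib.MP_8f49b0_lc.MM.I.Basic

/-! # The order (module I-ORDER) -/

namespace Pool.Agent.Lib.MP_8f49b0_lc.MM

namespace Code

variable {K : Code}

/-! ### the order -/

theorem le_refl_of_ok {c : Pre} (h : K.Ok c) : K.le c c :=
  ⟨Finset.Subset.refl _, Finset.Subset.refl _, fun t ht => ⟨t.2.2, ht,
    (h.good t ht).refl _ (h.res_mem ht) _ (h.chain.tr t ht).2⟩⟩

private theorem Order_le_res {c' c : Pre} (h : K.le c' c) (α : O) : K.le (c'.res α) (c.res α) := by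
  refine ⟨h.u, fun N hN => ?_, fun t ht => ?_⟩
  · rw [mem_res_C] at hN ⊢
    exact ⟨h.C hN.1, hN.2⟩
  · rw [mem_res_T] at ht
    obtain ⟨h', h1, h2⟩ := h.T t ht.1
    refine ⟨h', mem_res_T.2 ⟨h1, ht.2⟩, ?_⟩
    rw [res_res _ ht.2.le]
    exact h2

theorem le_trans_of_ok {a b c : Pre} (ha : K.Ok a) (hb : K.Ok b) (hc : K.Ok c) (hab : K.le a b) (hbc : K.le b c) :
    K.le a c := by
  refine ⟨hbc.u.trans hab.u, hbc.C.trans hab.C, fun t ht => ?_⟩
  obtain ⟨h', h1, h2⟩ := hbc.T t ht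
  obtain ⟨h'', h3, h4⟩ := hab.T _ h1
  have hg := ha.good _ h3
  have ha' : a.res t.1 ∈ K.V t.1 := ha.res_mem (t := (t.1, t.2.1, h'')) h3
  have hb' : b.res t.1 ∈ K.V t.1 := hb.res_mem (t := (t.1, t.2.1, h')) h1
  have w0 : t.2.2 < w1 := (hc.chain.tr t ht).2
  have w1' : h' < w1 := (hb.chain.tr _ h1).2
  have w2 : h'' < w1 := (ha.chain.tr _ h3).2
  have h5 : K.L t.2.1 (a.res t.1) h' t.2.2 :=
    hg.mono _ hb' _ ha' (Order_le_res hab t.1) _ w1' _ w0 h2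
  exact ⟨h'', h3, hg.trans _ ha' _ w0 _ w1' _ w2 h4 h5⟩

/-- restriction is monotone -/
theorem le.res {c' c : Pre} (h : K.le c' c) (α : O) : K.le (c'.res α) (c.res α) :=
  Order_le_res h α

/-- if `c` is below `α` it is enough to compare the restriction to `α` -/
theorem le_of_res {c' c : Pre} {α : O} (hc : Below α c) (h : K.le (c'.res α) c) : K.le c' c := by
  refine ⟨h.u, fun N hN => (mem_res_C.1 (h.C hN)).1, fun t ht => ?_⟩
  obtain ⟨h', h1, h2⟩ := h.T t ht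
  rw [res_res _ (hc.T t ht).1.le] at h2
  exact ⟨h', (mem_res_T.1 h1).1, h2⟩

theorem res_le_of_le {c' c : Pre} {α : O} (hc : Below α c) (h : K.le c' c) : K.le (c'.res α) c := by
  have h1 := Order_le_res h α
  rwa [hc.res_eq] at h1

/-- a condition is below its restrictions -/
theorem Ok.le_res {c : Pre} (h : K.Ok c) (α : O) : K.le c (c.res α) := by
  refine ⟨Finset.Subset.refl _, fun N hN => (mem_res_C.1 hN).1, fun t ht => ?_⟩
  have ht' := (mem_res_T.1 ht).1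
  exact ⟨t.2.2, ht', (h.good t ht').refl _ (h.res_mem ht') _ (h.chain.tr t ht').2⟩

theorem ex_refl {c : Pre} (h : K.Ok c) : K.ex c c := ⟨h, le_refl_of_ok h⟩

theorem ex_trans {a b c : Pre} (hc : K.Ok c) (hab : K.ex a b) (hbc : K.ex b c) : K.ex a c :=
  ⟨hab.1, le_trans_of_ok hab.1 hbc.1 hc hab.2 hbc.2⟩

/-! ### the order of the iteration at a good node -/

theorem leR_refl {β x : O} (hg : K.Good (K.V β) β x) {a : Pre × O} (ha : a ∈ RS (K.V β)) : K.leR x a a :=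
  ⟨le_refl_of_ok (mem_V.1 ha.1).2, hg.refl a.1 ha.1 a.2 ha.2⟩

theorem leR_trans {β x : O} (hg : K.Good (K.V β) β x) {a b c : Pre × O} (ha : a ∈ RS (K.V β))
    (hb : b ∈ RS (K.V β)) (hc : c ∈ RS (K.V β)) (hab : K.leR x a b) (hbc : K.leR x b c) : K.leR x a c := by
  refine ⟨le_trans_of_ok (mem_V.1 ha.1).2 (mem_V.1 hb.1).2 (mem_V.1 hc.1).2 hab.le hbc.le, ?_⟩
  have h1 := hg.mono b.1 hb.1 a.1 ha.1 hab.le b.2 hb.2 c.2 hc.2 hbc.L
  exact hg.trans a.1 ha.1 c.2 hc.2 b.2 hb.2 a.2 ha.2 hab.L h1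

/-- strengthening the first coordinate -/
theorem leR_fst {β x : O} (hg : K.Good (K.V β) β x) {g' g : Pre} (hg' : g' ∈ K.V β) (h : K.le g' g)
    {ξ : O} (hξ : ξ < w1) : K.leR x (g', ξ) (g, ξ) :=
  ⟨h, hg.refl g' hg' ξ hξ⟩

/-! ### genericity -/

theorem Gen.anti {β x : O} (hg : K.Good (K.V β) β x) {N : Set O} {a a' : Pre × O} (ha : a ∈ RS (K.V β))
    (ha' : a' ∈ RS (K.V β)) (h : K.leR x a' a) (hG : K.Gen (K.V β) β x N a) : K.Gen (K.V β) β x N a' :=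
  fun y hy hD b hb hba => hG y hy hD b hb (leR_trans hg hb ha' ha hba h)

/-- genericity for a trace: `K.en β y` is only dense for `y < io β ≤ α`, and the elements of `K.en β y` which belong to `N` belong to
`N ∩ Set.Iio α` (`PIn.inter`); note `K.DO` implies that the elements of `K.en β y` are in `RS (K.V β)` -/
theorem gen_inter {β x α : O} (hβ : β < α) (hα : K.Tr α) {N : Set O} {a : Pre × O} (ha : a ∈ RS (K.V β)) :
    K.Gen (K.V β) β x (N ∩ Set.Iio α) a ↔ K.Gen (K.V β) β x N a := by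
  constructor
  · intro h y hy hD b hb hba
    by_cases hyα : y < α
    · obtain ⟨b', h1, h2, d, h3, h4, h5⟩ := h y ⟨hy, hyα⟩ hD b hb hba
      exact ⟨b', h1, h2, d, h3, ⟨h4.fst.mono Set.inter_subset_left, h4.snd.1⟩, h5⟩
    · obtain ⟨d, hd, -⟩ := hD.dense a ha
      rw [K.en_out β y ((hα.io β hβ).trans (not_lt.1 hyα))] at hd
      exact absurd hd (Set.notMem_empty d)
  · intro h y hy hD b hb hba
    obtain ⟨b', h1, h2, d, h3, h4, h5⟩ := h y hy.1 hD b hb hba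
    have h6 := hD.sub h3
    have h7 : Below α d.1 := (mem_V.1 h6.1).1.mono hβ.le
    exact ⟨b', h1, h2, d, h3, ⟨h4.fst.inter hα h7, h4.snd, h6.2.trans hα.w1⟩, h5⟩

/-! ### conditions -/

/-- every condition with a countable node has the bottom node; hence there is a largest transitive node in `M` -/
theorem Ok.exists_max {c : Pre} (h : K.Ok c) {M : Set O} (hM : M ∈ c.C) :
    ∃ t ∈ c.T, t.1 ∈ M ∧ t.2.1 ∈ M ∧ ∀ t' ∈ c.T, t'.1 ∈ M → t'.2.1 ∈ M → t'.1 ≤ t.1 := by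
  classical
  obtain ⟨h0, hh0⟩ := h.chain.bot (Or.inr ⟨M, hM⟩)
  have hN := h.chain.nice M hM
  have hne : (c.T.filter (fun t => t.1 ∈ M ∧ t.2.1 ∈ M)).Nonempty :=
    ⟨_, Finset.mem_filter.2 ⟨hh0, hN.zero_mem, hN.xb⟩⟩
  obtain ⟨t, ht, hmax⟩ := Finset.exists_max_image _ (fun t => t.1) hne
  rw [Finset.mem_filter] at ht
  exact ⟨t, ht.1, ht.2.1, ht.2.2, fun t' ht' h1 h2 => hmax t' (Finset.mem_filter.2 ⟨ht', h1, h2⟩)⟩

end Code

end Pool.Agent.Lib.MP_8f49b0_lc.MM
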