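import Pool.Agent.Lib.MP_8f49b0_lc.MM.S.Close
import Pool.Agent.Lib.MP_8f49b0_lc.MM.I.Order

/-! # Reflection for generic elements of the iteration at a good node (module I-GENREFL)

Let `D a x p = {σ ∈ RS (V a) | (∃ e ∈ E a x p, e.1 ∈ RS (V a) ∧ leR x σ e.1) ∨ no σ' ≤ σ in RS (V a) has this property}`; it is dense open. Apply `exists_sk` to
`X₁ = O × O × X`, `Y₁ = O`, `R₁ (a, x, p) y ↔ K.en a y = D a x p` (`K.en_surj`; every ordinal `y` belongs to `{y}`), and to `X₂ = (Pre × O) × O × O × X`,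
`Y₂ = (Pre × O) × Y`, `R₂ (σ, a, x, p) e ↔ e ∈ E a x p ∧ e.1 ∈ RS (V a) ∧ leR x σ e.1` (supports: conditions have finite support (`exists_supp`, `mem_V`), `hE`), and merge. -/

namespace Pool.Agent.Lib.MP_8f49b0_lc.MM

namespace Code

variable (K : Code)

private def GenRefl_D {X Y : Type*} (E : O → O → X → Set ((Pre × O) × Y)) (a x : O) (p : X) :
    Set (Pre × O) :=
  {σ | σ ∈ RS (K.V a) ∧ ((∃ e ∈ E a x p, e.1 ∈ RS (K.V a) ∧ K.leR x σ e.1) ∨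
    ∀ σ' ∈ RS (K.V a), K.leR x σ' σ → ¬ ∃ e ∈ E a x p, e.1 ∈ RS (K.V a) ∧ K.leR x σ' e.1)}

private theorem GenRefl_DO {X Y : Type*} (E : O → O → X → Set ((Pre × O) × Y)) (a x : O) (p : X)
    (hg : K.Good (K.V a) a x) : K.DO (K.V a) x (GenRefl_D K E a x p) := by
  refine ⟨fun σ hσ => hσ.1, fun b hb => ?_, fun d hd b hb hbd => ?_⟩
  · by_cases h : ∃ σ' ∈ RS (K.V a), K.leR x σ' b ∧ ∃ e ∈ E a x p, e.1 ∈ RS (K.V a) ∧ K.leR x σ' e.1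
    · obtain ⟨σ', h1, h2, h3⟩ := h
      exact ⟨σ', ⟨h1, Or.inl h3⟩, h2⟩
    · exact ⟨b, ⟨hb, Or.inr fun σ' h1 h2 h3 => h ⟨σ', h1, h2, h3⟩⟩, leR_refl hg hb⟩
  · refine ⟨hb, ?_⟩
    rcases hd.2 with ⟨e, he, he1, he2⟩ | h
    · exact Or.inl ⟨e, he, he1, leR_trans hg hb hd.1 he1 hbd he2⟩
    · exact Or.inr fun σ' h1 h2 => h σ' h1 (leR_trans hg h1 hb hd.1 h2 hbd)

theorem gen_reflect {X Y : Type*} [Sp K X] [Sp K Y] (E : O → O → X → Set ((Pre × O) × Y))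
    (hE : ∀ a x p, ∀ e ∈ E a x p, ∃ A : Set O, Sp.In K A e.2) :
    ∃ F : List O → Set O, Fn F ∧ ∀ N, K.Nice N → Cl F N → ∀ a ∈ N, ∀ x ∈ N, K.Good (K.V a) a x →
      ∀ p, Sp.In K N p → ∀ ρ ∈ RS (K.V a), K.Gen (K.V a) a x N ρ →
      ∀ e ∈ E a x p, e.1 ∈ RS (K.V a) → K.leR x ρ e.1 →
      ∃ e' ∈ E a x p, Sp.In K N e' ∧ e'.1 ∈ RS (K.V a) ∧
        ∃ ρ' ∈ RS (K.V a), K.leR x ρ' ρ ∧ K.leR x ρ' e'.1 := by
  obtain ⟨F1, hF1, h1⟩ := exists_sk K (X := O × O × X) (Y := O)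
    (fun q y => K.en q.1 y = GenRefl_D K E q.1 q.2.1 q.2.2)
    (fun q y _ => ⟨{y}, by
      change y ∈ ({y} : Set O)
      exact Set.mem_singleton _⟩)
  obtain ⟨F2, hF2, h2⟩ := exists_sk K (X := (Pre × O) × O × O × X) (Y := (Pre × O) × Y)
    (fun q e => e ∈ E q.2.1 q.2.2.1 q.2.2.2 ∧ e.1 ∈ RS (K.V q.2.1) ∧ K.leR q.2.2.1 q.1 e.1)
    (fun q e he => by
      obtain ⟨he1, he2, _⟩ := he
      obtain ⟨A1, hA1⟩ := hE _ _ _ e he1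
      have hok : K.Ok e.1.1 := (mem_V.1 he2.1).2
      obtain ⟨A2, _, hA2⟩ := exists_supp K e.1.1 (fun N hN => (hok.chain.nice N hN).count)
      have hP : K.PIn A2 e.1.1 := (hA2 A2).2 (Set.Subset.refl _)
      refine ⟨A1 ∪ (A2 ∪ {e.1.2}), ⟨⟨?_, ?_⟩, ?_⟩⟩
      · exact PIn.mono hP (fun ξ hξ => Or.inr (Or.inl hξ))
      · exact Or.inr (Or.inr (Set.mem_singleton _))
      · exact Sp.mono (fun ξ hξ => Or.inl hξ) hA1)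
  obtain ⟨F, hF, hFN⟩ := exists_merge2 F1 F2 hF1 hF2
  refine ⟨F, hF, fun N hN hNF a ha x hx hg p hp ρ hρ hgen e he he1 hρe => ?_⟩
  obtain ⟨hN1, hN2⟩ := hFN N hNF
  obtain ⟨y, hyN, hy⟩ := h1 N hN1 (a, x, p) ⟨ha, hx, hp⟩ (by
    obtain ⟨y, _, hy⟩ := K.en_surj a (GenRefl_D K E a x p)
      (fun d hd => ⟨(mem_V.1 hd.1.1).1, hd.1.2⟩)
    exact ⟨y, hy⟩)
  have hy' : K.en a y = GenRefl_D K E a x p := hy
  have hyN' : y ∈ N := hyN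
  obtain ⟨b, hb, hbρ, d, hd, hdN, hbd⟩ := hgen y hyN' (by rw [hy']; exact GenRefl_DO K E a x p hg)
    ρ hρ (leR_refl hg hρ)
  rw [hy'] at hd
  have hd1 : d ∈ RS (K.V a) := hd.1
  have hbe : K.leR x b e.1 := leR_trans hg hb hρ he1 hbρ hρe
  have hPd : ∃ e ∈ E a x p, e.1 ∈ RS (K.V a) ∧ K.leR x d e.1 := by
    rcases hd.2 with h | h
    · exact h
    · exact absurd ⟨e, he, he1, hbe⟩ (h b hb hbd)
  obtain ⟨e', he'N, he', he'1, hde'⟩ := h2 N hN2 (d, a, x, p) ⟨⟨hdN.fst, hdN.snd⟩, ha, hx, hp⟩ (by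
    obtain ⟨e2, h3, h4, h5⟩ := hPd
    exact ⟨e2, h3, h4, h5⟩)
  exact ⟨e', he', he'N, he'1, b, hb, hbρ, leR_trans hg hb hd1 he'1 hbd hde'⟩

end Code

end Pool.Agent.Lib.MP_8f49b0_lc.MM
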