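import Pool.Agent.Lib.MP_8f49b0_lc.MM.I.Cap

/-! # Strengthening a condition below a transitive node (module I-GLUE), (3.4) of the paper

`ok_glue`: `Chain` first (all clauses are checked in the paper; `cap` for `N ∈ c.C` above `t` and a new node `t' ∈ a.1.T` uses
`cap_all`: `N ∩ Set.Iio t.1 ∈ c.C` is below `t.1`, hence in `a.1.C`). Then `gen`, by induction on the height of the transitive node: for `t'` above `t` the restriction
`(c.glue t a).res t'.1 = (c.res t'.1).glue t a` is (induction) a condition and less than or equal to `c.res t'.1`; use `Gen.anti`. To have the induction available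
prove the statement by induction on the number of transitive nodes of `c` above `t` (or by strong induction on a bound `γ`, `Below γ c`). The statement `glue_le` only needs
`K.le` and `res`, and can be proved first or simultaneously. -/

namespace Pool.Agent.Lib.MP_8f49b0_lc.MM

open Classical in
/-- replace the part of `c` below the node `t` by `a.1` and the working part at `t` by `a.2` -/
noncomputable def Pre.glue (c : Pre) (t : O × O × O) (a : Pre × O) : Pre where
  T := a.1.T ∪ (insert (t.1, t.2.1, a.2) (c.T.filter (fun t' => t.1 < t'.1)))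
  C := a.1.C ∪ c.C.filter (fun N => ¬ N ⊆ Set.Iio t.1)
  u := a.1.u

namespace Code

variable {K : Code}

theorem mem_glue_T {c : Pre} {t s : O × O × O} {a : Pre × O} :
    s ∈ (c.glue t a).T ↔ s ∈ a.1.T ∨ s = (t.1, t.2.1, a.2) ∨ (s ∈ c.T ∧ t.1 < s.1) := by
  unfold Pre.glue
  simp
  tauto

theorem mem_glue_C {c : Pre} {t : O × O × O} {a : Pre × O} {N : Set O} :
    N ∈ (c.glue t a).C ↔ N ∈ a.1.C ∨ (N ∈ c.C ∧ ¬ N ⊆ Set.Iio t.1) := by
  unfold Pre.glue
  simp

theorem glue_u (c : Pre) (t : O × O × O) (a : Pre × O) : (c.glue t a).u = a.1.u := rfl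

theorem glue_res (c : Pre) (t : O × O × O) (a : Pre × O) (ha : a.1 ∈ K.V t.1) : (c.glue t a).res t.1 = a.1 := by
  have hb := (mem_V.1 ha).1
  apply Pre.ext
  · ext s
    rw [mem_res_T, mem_glue_T]
    constructor
    · rintro ⟨h1 | h1 | h1, h2⟩
      · exact h1
      · rw [h1] at h2
        exact absurd h2 (lt_irrefl _)
      · exact absurd h1.2 (not_lt.2 h2.le)
    · intro h1
      exact ⟨Or.inl h1, (hb.T s h1).1⟩
  · ext N
    rw [mem_res_C, mem_glue_C]
    constructor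
    · rintro ⟨h1 | h1, h2⟩
      · exact h1
      · exact absurd h2 h1.2
    · intro h1
      exact ⟨Or.inl h1, (hb.C N h1).2⟩
  · rw [res_u, glue_u]

theorem below_glue {c : Pre} {t : O × O × O} {a : Pre × O} {γ : O} (hc : Below γ c) (ht : t ∈ c.T)
    (ha : a ∈ RS (K.V t.1)) : Below γ (c.glue t a) := by
  have hb := (mem_V.1 ha.1).1
  have ht' := hc.T t ht
  refine ⟨?_, ?_, ?_⟩
  · intro s hs
    rcases mem_glue_T.1 hs with h1 | h1 | h1
    · have := hb.T s h1
      exact ⟨this.1.trans ht'.1, this.2.1.trans ht'.1, this.2.2⟩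
    · rw [h1]
      exact ⟨ht'.1, ht'.2.1, ha.2⟩
    · exact hc.T s h1.1
  · intro N hN
    rcases mem_glue_C.1 hN with h1 | h1
    · have := hb.C N h1
      exact ⟨this.1, fun ξ hξ => (Set.mem_Iio.1 (this.2 hξ)).trans ht'.1⟩
    · exact hc.C N h1.1
  · intro v hv
    exact hb.u v hv

/-- restrictions above the node -/
private theorem glue_res_above {c : Pre} {t : O × O × O} {a : Pre × O} {α : O} (ha : a.1 ∈ K.V t.1)
    (hα : t.1 < α) : (c.glue t a).res α = (c.res α).glue t a := by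
  have hb := (mem_V.1 ha).1
  apply Pre.ext
  · ext s
    rw [mem_res_T, mem_glue_T, mem_glue_T, mem_res_T]
    constructor
    · rintro ⟨h1 | h1 | h1, h2⟩
      · exact Or.inl h1
      · exact Or.inr (Or.inl h1)
      · exact Or.inr (Or.inr ⟨⟨h1.1, h2⟩, h1.2⟩)
    · rintro (h1 | h1 | h1)
      · exact ⟨Or.inl h1, (hb.T s h1).1.trans hα⟩
      · refine ⟨Or.inr (Or.inl h1), ?_⟩
        rw [h1]
        exact hα
      · exact ⟨Or.inr (Or.inr ⟨h1.1.1, h1.2⟩), h1.1.2⟩
  · ext N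
    rw [mem_res_C, mem_glue_C, mem_glue_C, mem_res_C]
    constructor
    · rintro ⟨h1 | h1, h2⟩
      · exact Or.inl h1
      · exact Or.inr ⟨⟨h1.1, h2⟩, h1.2⟩
    · rintro (h1 | h1)
      · exact ⟨Or.inl h1, fun ξ hξ => (Set.mem_Iio.1 ((hb.C N h1).2 hξ)).trans hα⟩
      · exact ⟨Or.inr ⟨h1.1.1, h1.2⟩, h1.1.2⟩
  · rw [res_u, glue_u, glue_u]

/-- restrictions below the node -/
private theorem glue_res_below {c : Pre} {t : O × O × O} {a : Pre × O} {α : O} (ha : a.1 ∈ K.V t.1)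
    (hα : α ≤ t.1) : (c.glue t a).res α = a.1.res α := by
  rw [← res_res (c.glue t a) hα, glue_res c t a ha]

private theorem glue_chain {c : Pre} (hc : K.Ok c) {t : O × O × O} (ht : t ∈ c.T) {a : Pre × O}
    (ha : a ∈ RS (K.V t.1)) (h : K.leR t.2.1 a (c.res t.1, t.2.2)) : K.Chain (c.glue t a) := by
  have hcc := hc.chain
  have hb := (mem_V.1 ha.1).1
  have hac := (mem_V.1 ha.1).2.chain
  have hle : K.le a.1 (c.res t.1) := h.le
  -- traces of the countable nodes above `t`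
  have htrace : ∀ N ∈ c.C, 0 < t.1 → N ∩ Set.Iio t.1 ∈ a.1.C := by
    intro N hN h0
    exact hle.C (mem_res_C.2 ⟨hcc.cap_all hN ht h0, Set.inter_subset_right⟩)
  refine ⟨?_, ?_, ?_, ?_, ?_, ?_, ?_, ?_, ?_, ?_⟩
  · intro N hN
    rcases mem_glue_C.1 hN with h1 | h1
    · exact hac.nice N h1
    · exact hcc.nice N h1.1
  · intro s hs
    rcases mem_glue_T.1 hs with h1 | h1 | h1
    · exact hac.tr s h1
    · rw [h1]
      exact ⟨(hcc.tr t ht).1, ha.2⟩
    · exact hcc.tr s h1.1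
  · intro s hs s' hs' hss
    rcases mem_glue_T.1 hs with h1 | h1 | h1 <;> rcases mem_glue_T.1 hs' with h2 | h2 | h2
    · exact hac.eq s h1 s' h2 hss
    · have h3 := (hb.T s h1).1
      rw [hss, h2] at h3
      exact absurd h3 (lt_irrefl _)
    · have h3 := (hb.T s h1).1
      rw [hss] at h3
      exact absurd h3 (not_lt.2 h2.2.le)
    · have h3 := (hb.T s' h2).1
      rw [← hss, h1] at h3
      exact absurd h3 (lt_irrefl _)
    · rw [h1, h2]
    · have h3 := h2.2
      rw [← hss, h1] at h3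
      exact absurd h3 (lt_irrefl _)
    · have h3 := (hb.T s' h2).1
      rw [← hss] at h3
      exact absurd h3 (not_lt.2 h1.2.le)
    · have h3 := h1.2
      rw [hss, h2] at h3
      exact absurd h3 (lt_irrefl _)
    · exact hcc.eq s h1.1 s' h2.1 hss
  · intro s hs s' hs' hss
    rcases mem_glue_T.1 hs with h1 | h1 | h1 <;> rcases mem_glue_T.1 hs' with h2 | h2 | h2
    · exact hac.lt s h1 s' h2 hss
    · rw [h2]
      exact (hb.T s h1).2.1
    · exact ((hb.T s h1).2.1).trans h2.2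
    · have h3 := (hb.T s' h2).1
      rw [h1] at hss
      exact absurd hss (not_lt.2 h3.le)
    · rw [h1, h2] at hss
      exact absurd hss (lt_irrefl _)
    · rw [h1]
      exact hcc.lt t ht s' h2.1 h2.2
    · have h3 := (hb.T s' h2).1
      exact absurd (hss.trans h3) (not_lt.2 h1.2.le)
    · rw [h2] at hss
      exact absurd hss (not_lt.2 h1.2.le)
    · exact hcc.lt s h1.1 s' h2.1 hss
  · intro _
    obtain ⟨h0, hh0⟩ := hcc.bot (Or.inl ⟨t, ht⟩)
    rcases eq_or_ne t.1 0 with h1 | h1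
    · have h2 : t = (0, K.xb, h0) := hcc.eq t ht _ hh0 h1
      refine ⟨a.2, mem_glue_T.2 (Or.inr (Or.inl ?_))⟩
      rw [h2]
    · have h2 : (0 : O) < t.1 := pos_iff_ne_zero.2 h1
      obtain ⟨h', hh', -⟩ := hle.T _ (mem_res_T.2 ⟨hh0, h2⟩)
      exact ⟨h', mem_glue_T.2 (Or.inl hh')⟩
  · intro N hN s hs hNs hmax
    rcases mem_glue_C.1 hN with h1 | h1
    · have hNt : N ⊆ Set.Iio t.1 := (hb.C N h1).2
      have hst : s.1 < t.1 := by
        by_contra h2
        exact hNs fun ξ hξ => lt_of_lt_of_le (Set.mem_Iio.1 (hNt hξ)) (not_lt.1 h2)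
      have hsa : s ∈ a.1.T := by
        rcases mem_glue_T.1 hs with h2 | h2 | h2
        · exact h2
        · rw [h2] at hst
          exact absurd hst (lt_irrefl _)
        · exact absurd hst (not_lt.2 h2.2.le)
      exact hac.base N h1 s hsa hNs fun s' hs' hNs' => hmax s' (mem_glue_T.2 (Or.inl hs')) hNs'
    · have hts : t.1 ≤ s.1 := hmax (t.1, t.2.1, a.2) (mem_glue_T.2 (Or.inr (Or.inl rfl))) h1.2
      rcases mem_glue_T.1 hs with h2 | h2 | h2
      · exact absurd (hb.T s h2).1 (not_lt.2 hts)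
      · have h3 := hcc.base N h1.1 t ht h1.2 (by
          intro t' ht' hNt'
          by_contra h4
          have h5 := hmax t' (mem_glue_T.2 (Or.inr (Or.inr ⟨ht', not_le.1 h4⟩))) hNt'
          rw [h2] at h5
          exact h4 h5)
        rw [h2]
        exact h3
      · refine hcc.base N h1.1 s h2.1 hNs ?_
        intro t' ht' hNt'
        rcases le_or_gt t'.1 t.1 with h4 | h4
        · exact h4.trans hts
        · exact hmax t' (mem_glue_T.2 (Or.inr (Or.inr ⟨ht', h4⟩))) hNt'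
  · intro N hN s hs h0 hs1 hs2
    rcases mem_glue_C.1 hN with h1 | h1
    · have hst : s.1 < t.1 := Set.mem_Iio.1 ((hb.C N h1).2 hs1)
      have hsa : s ∈ a.1.T := by
        rcases mem_glue_T.1 hs with h2 | h2 | h2
        · exact h2
        · rw [h2] at hst
          exact absurd hst (lt_irrefl _)
        · exact absurd hst (not_lt.2 h2.2.le)
      exact mem_glue_C.2 (Or.inl (hac.cap N h1 s hsa h0 hs1 hs2))
    · rcases mem_glue_T.1 hs with h2 | h2 | h2
      · have hst := hb.T s h2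
        have h3 := htrace N h1.1 (h0.trans hst.1)
        have h4 := hac.cap _ h3 s h2 h0 ⟨hs1, hst.1⟩ ⟨hs2, hst.2.1⟩
        refine mem_glue_C.2 (Or.inl ?_)
        have h5 : N ∩ Set.Iio t.1 ∩ Set.Iio s.1 = N ∩ Set.Iio s.1 := by
          ext ξ
          constructor
          · rintro ⟨⟨h6, -⟩, h7⟩
            exact ⟨h6, h7⟩
          · rintro ⟨h6, h7⟩
            exact ⟨⟨h6, (Set.mem_Iio.1 h7).trans hst.1⟩, h7⟩
        rwa [h5] at h4
      · rw [h2] at h0 ⊢
        exact mem_glue_C.2 (Or.inl (htrace N h1.1 h0))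
      · have h3 := hcc.cap N h1.1 s h2.1 h0 hs1 hs2
        by_cases h4 : N ∩ Set.Iio s.1 ⊆ Set.Iio t.1
        · exact mem_glue_C.2 (Or.inl (hle.C (mem_res_C.2 ⟨h3, h4⟩)))
        · exact mem_glue_C.2 (Or.inr ⟨h3, h4⟩)
  · intro N hN N' hN' hiff
    have ht1 := hiff (t.1, t.2.1, a.2) (mem_glue_T.2 (Or.inr (Or.inl rfl)))
    by_cases h1 : N ⊆ Set.Iio t.1
    · have h2 : N' ⊆ Set.Iio t.1 := ht1.1 h1
      have h3 : N ∈ a.1.C := by
        rcases mem_glue_C.1 hN with h4 | h4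
        · exact h4
        · exact absurd h1 h4.2
      have h3' : N' ∈ a.1.C := by
        rcases mem_glue_C.1 hN' with h4 | h4
        · exact h4
        · exact absurd h2 h4.2
      exact hac.comp N h3 N' h3' fun s hs => hiff s (mem_glue_T.2 (Or.inl hs))
    · have h2 : ¬ N' ⊆ Set.Iio t.1 := fun h2 => h1 (ht1.2 h2)
      have h3 : N ∈ c.C := by
        rcases mem_glue_C.1 hN with h4 | h4
        · exact absurd (hb.C N h4).2 h1
        · exact h4.1
      have h3' : N' ∈ c.C := by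
        rcases mem_glue_C.1 hN' with h4 | h4
        · exact absurd (hb.C N' h4).2 h2
        · exact h4.1
      refine hcc.comp N h3 N' h3' fun s hs => ?_
      rcases le_or_gt s.1 t.1 with h4 | h4
      · constructor
        · intro h5
          exact absurd (fun ξ hξ => lt_of_lt_of_le (Set.mem_Iio.1 (h5 hξ)) h4) h1
        · intro h5
          exact absurd (fun ξ hξ => lt_of_lt_of_le (Set.mem_Iio.1 (h5 hξ)) h4) h2
      · exact hiff s (mem_glue_T.2 (Or.inr (Or.inr ⟨hs, h4⟩)))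
  · intro ξ n b b' h1 h2
    exact hac.u_fun ξ n b b' h1 h2
  · intro v hv
    exact hac.u_lt v hv

private theorem glue_aux (γ : O) : ∀ c : Pre, K.Ok c → Below γ c → ∀ t ∈ c.T, ∀ a ∈ RS (K.V t.1),
    K.leR t.2.1 a (c.res t.1, t.2.2) → K.Ok (c.glue t a) ∧ K.le (c.glue t a) c := by
  induction γ using WellFoundedLT.induction with
  | ind γ ih =>
  intro c hc hcγ t ht a ha h
  have hcc := hc.chain
  have hb := (mem_V.1 ha.1).1
  have hao := (mem_V.1 ha.1).2
  have hac := hao.chain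
  have hle : K.le a.1 (c.res t.1) := h.le
  -- the restrictions above `t`
  have habove : ∀ s ∈ c.T, t.1 < s.1 → (c.glue t a).res s.1 ∈ K.V s.1 ∧
      K.le ((c.glue t a).res s.1) (c.res s.1) := by
    intro s hs hts
    have h1 : c.res s.1 ∈ K.V s.1 := hc.res_mem hs
    have h2 := mem_V.1 h1
    have h3 : t ∈ (c.res s.1).T := mem_res_T.2 ⟨ht, hts⟩
    have h4 : K.leR t.2.1 a ((c.res s.1).res t.1, t.2.2) := by
      rw [res_res c hts.le]
      exact h
    have h5 := ih s.1 (hcγ.T s hs).1 (c.res s.1) h2.2 h2.1 t h3 a ha h4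
    rw [glue_res_above ha.1 hts]
    exact ⟨mem_V.2 ⟨below_glue h2.1 h3 ha, h5.1⟩, h5.2⟩
  refine ⟨⟨glue_chain hc ht ha h, ?_, ?_⟩, ⟨?_, ?_, ?_⟩⟩
  · intro s hs
    rcases mem_glue_T.1 hs with h1 | h1 | h1
    · exact hao.good s h1
    · rw [h1]
      exact hc.good t ht
    · exact hc.good s h1.1
  · intro s hs N hN hs1 hs2
    rcases mem_glue_T.1 hs with h1 | h1 | h1
    · have hst := hb.T s h1
      rw [glue_res_below ha.1 hst.1.le]
      rcases mem_glue_C.1 hN with h2 | h2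
      · exact hao.gen s h1 N h2 hs1 hs2
      · have h0 : 0 < t.1 := lt_of_le_of_lt zero_le hst.1
        have h3 : N ∩ Set.Iio t.1 ∈ a.1.C :=
          hle.C (mem_res_C.2 ⟨hcc.cap_all h2.1 ht h0, Set.inter_subset_right⟩)
        have h4 := hao.gen s h1 _ h3 ⟨hs1, hst.1⟩ ⟨hs2, hst.2.1⟩
        have h5 : K.Tr t.1 := by
          rcases (hcc.tr t ht).1 with h6 | h6
          · exact h6
          · exact absurd h6.1 h0.ne'
        exact (gen_inter hst.1 h5 ⟨hao.res_mem h1, hst.2.2⟩).1 h4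
    · rw [h1] at hs1 hs2 ⊢
      simp only at hs1 hs2 ⊢
      rw [glue_res c t a ha.1]
      rcases mem_glue_C.1 hN with h2 | h2
      · exact absurd (Set.mem_Iio.1 ((hb.C N h2).2 hs1)) (lt_irrefl _)
      · have h3 := hc.gen t ht N h2.1 hs1 hs2
        exact Gen.anti (hc.good t ht) ⟨hc.res_mem ht, (hcc.tr t ht).2⟩ ha h h3
    · rcases mem_glue_C.1 hN with h2 | h2
      · exact absurd (Set.mem_Iio.1 ((hb.C N h2).2 hs1)) (not_lt.2 h1.2.le)
      · have h3 := hc.gen s h1.1 N h2.1 hs1 hs2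
        have h4 := habove s h1.1 h1.2
        have h5 := (hcc.tr s h1.1).2
        exact Gen.anti (hc.good s h1.1) ⟨hc.res_mem h1.1, h5⟩ ⟨h4.1, h5⟩
          (leR_fst (hc.good s h1.1) h4.1 h4.2 h5) h3
  · intro v hv
    exact hle.u hv
  · intro N hN
    by_cases h1 : N ⊆ Set.Iio t.1
    · exact mem_glue_C.2 (Or.inl (hle.C (mem_res_C.2 ⟨hN, h1⟩)))
    · exact mem_glue_C.2 (Or.inr ⟨hN, h1⟩)
  · intro s hs
    rcases lt_trichotomy s.1 t.1 with h1 | h1 | h1
    · obtain ⟨h', hh', hL⟩ := hle.T s (mem_res_T.2 ⟨hs, h1⟩)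
      refine ⟨h', mem_glue_T.2 (Or.inl hh'), ?_⟩
      rw [glue_res_below ha.1 h1.le]
      exact hL
    · have h2 : s = t := hcc.eq s hs t ht h1
      rw [h2]
      refine ⟨a.2, mem_glue_T.2 (Or.inr (Or.inl rfl)), ?_⟩
      rw [glue_res c t a ha.1]
      exact h.L
    · refine ⟨s.2.2, mem_glue_T.2 (Or.inr (Or.inr ⟨hs, h1⟩)), ?_⟩
      exact (hc.good s hs).refl _ (habove s hs h1).1 _ (hcc.tr s hs).2

theorem ok_glue {c : Pre} (hc : K.Ok c) {t : O × O × O} (ht : t ∈ c.T) {a : Pre × O} (ha : a ∈ RS (K.V t.1))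
    (h : K.leR t.2.1 a (c.res t.1, t.2.2)) : K.Ok (c.glue t a) := by
  obtain ⟨γ, -, hγ⟩ := hc.exists_below 0
  exact (glue_aux γ c hc hγ t ht a ha h).1

theorem glue_le {c : Pre} (hc : K.Ok c) {t : O × O × O} (ht : t ∈ c.T) {a : Pre × O} (ha : a ∈ RS (K.V t.1))
    (h : K.leR t.2.1 a (c.res t.1, t.2.2)) : K.le (c.glue t a) c := by
  obtain ⟨γ, -, hγ⟩ := hc.exists_below 0
  exact (glue_aux γ c hc hγ t ht a ha h).2

/-- the form in which the lemma is used -/
theorem exists_glue {c : Pre} (hc : K.Ok c) {t : O × O × O} (ht : t ∈ c.T) {a : Pre × O} (ha : a ∈ RS (K.V t.1))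
    (h : K.leR t.2.1 a (c.res t.1, t.2.2)) :
    ∃ c', K.ex c' c ∧ c'.res t.1 = a.1 ∧ (t.1, t.2.1, a.2) ∈ c'.T ∧ K.le c' a.1 ∧ ∀ γ, Below γ c → Below γ c' := by
  refine ⟨c.glue t a, ⟨ok_glue hc ht ha h, glue_le hc ht ha h⟩, glue_res c t a ha.1, mem_glue_T.2 (Or.inr (Or.inl rfl)),
    ?_, fun γ hγ => below_glue hγ ht ha⟩
  have h1 : K.le ((c.glue t a).res t.1) a.1 := by
    rw [glue_res c t a ha.1]
    exact le_refl_of_ok (mem_V.1 ha.1).2
  exact le_of_res (mem_V.1 ha.1).1 h1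

/-- only the part below `t` is strengthened -/
theorem exists_glue_fst {c : Pre} (hc : K.Ok c) {t : O × O × O} (ht : t ∈ c.T) {g : Pre} (hg : g ∈ K.V t.1)
    (h : K.le g (c.res t.1)) :
    ∃ c', K.ex c' c ∧ c'.res t.1 = g ∧ t ∈ c'.T ∧ K.le c' g ∧ ∀ γ, Below γ c → Below γ c' := by
  have hgood := hc.good t ht
  have htr := hc.chain.tr t ht
  obtain ⟨c', h1, h2, h3, h4, h5⟩ := exists_glue hc ht (a := (g, t.2.2)) ⟨hg, htr.2⟩ (leR_fst hgood hg h htr.2)
  exact ⟨c', h1, h2, h3, h4, h5⟩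

end Code

end Pool.Agent.Lib.MP_8f49b0_lc.MM
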