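import Pool.Agent.Lib.MP_8f49b0_lc.MM.I.KlRS
import Pool.Agent.Lib.MP_8f49b0_lc.MM.I.Amalg

/-! # The K-lemma for the forcing notion and its levels (module I-KL), (3.7), (3.8) of the paper

`kl`: let `M = NB b N`, `c = z.1`, `w = (a, x, h)` the largest transitive node of `c` in `M` (`Ok.exists_max`), `B` the set of the `N' ∈ c.C` with `K.cn N' ∈ M`, `a, x ∈ N'`. Apply `kl_RS` to
`X' = X × Finset (Set O)`, `Y' = Pre × Y`, `Z' a x (p, B) = {((g, k), β, (d, y)) | (d, β, y) ∈ Z p, d ∈ PB b, B ⊆ d.C, (a, x, k) ∈ d.T, g = d.res a}`, to `N` (`Ok.gen`, `gen_inter`) and to `((c.res a, h), β, (c, y))`.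
This gives `d` in `N` (hence in `M`: `PIn.inter`), and `ρ' ≤ (c.res a, h), (d.res a, k)`. Let `c₁ = c.glue w ρ'`; then `Am K c₁ M (a, x, ρ'.2) d k` (`mem_glue_T`, `mem_glue_C`), and `amalg` gives the common extension. -/

namespace Pool.Agent.Lib.MP_8f49b0_lc.MM

namespace Code

/-- the whole forcing notion (`none`) and its levels -/
def PB (K : Code) (b : Option O) : Set Pre := {c | K.Ok c ∧ ∀ α, b = some α → Below α c}

/-- the trace of `N` on the level `b` -/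
def NB (b : Option O) (N : Set O) : Set O := {ξ | ξ ∈ N ∧ ∀ α, b = some α → ξ < α}

theorem PB_none (K : Code) : PB K none = {c | K.Ok c} := by
  ext c
  simp [PB]

theorem PB_some (K : Code) (α : O) : PB K (some α) = K.V α := by
  ext c
  rw [mem_V]
  simp [PB, and_comm]

theorem NB_none (N : Set O) : NB none N = N := by
  ext c
  simp [NB]

theorem NB_some (N : Set O) (α : O) : NB (some α) N = N ∩ Set.Iio α := by
  ext c
  simp [NB]

variable (K : Code)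

private theorem kl_lt_mono {ι : Type} {u u' : Finset (O × ℕ × Bool)} (h : u ⊆ u') {b b' : ι → O}
    (hL : Lt u b b') : Lt u' b b' := by
  intro i
  obtain ⟨n, h1, h2, h3⟩ := hL i
  refine ⟨n, fun m hm => ?_, h h2, h h3⟩
  obtain ⟨e, h4, h5⟩ := h1 m hm
  exact ⟨e, h h4, h h5⟩

private theorem kl_NB_sub (b : Option O) (N : Set O) : NB b N ⊆ N := fun _ h => h.1

private theorem kl_gen {K : Code} (b : Option O) (hb : ∀ α, b = some α → K.Tr α) {β x : O} {N : Set O}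
    (hβ : β ∈ NB b N) {a : Pre × O} (ha : a ∈ RS (K.V β)) (h : K.Gen (K.V β) β x (NB b N) a) :
    K.Gen (K.V β) β x N a := by
  cases b with
  | none => rwa [NB_none] at h
  | some α =>
    rw [NB_some] at h hβ
    exact (gen_inter hβ.2 (hb α rfl) ha).1 h

private theorem kl_pin {K : Code} (b : Option O) (hb : ∀ α, b = some α → K.Tr α) {N : Set O} {d : Pre}
    (hd : d ∈ PB K b) (h : K.PIn N d) : K.PIn (NB b N) d := by
  cases b with
  | none => rwa [NB_none]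
  | some α =>
    rw [NB_some]
    exact h.inter (hb α rfl) (hd.2 α rfl)

theorem kl (b : Option O) (hb : ∀ α, b = some α → K.Tr α) {X Y : Type*} [Sp K X] [Sp K Y] (ι : Type) [Finite ι]
    (Z : X → Set (Pre × (ι → O) × Y)) (hZ : ∀ p, ∀ z ∈ Z p, ∃ A : Set O, Sp.In K A z.2.2) :
    ∃ F : List O → Set O, Fn F ∧ ∀ N, K.Nice N → Cl F N → ∀ p, Sp.In K N p →
      ∀ z ∈ Z p, z.1 ∈ PB K b → NB b N ∈ z.1.C → (∀ i, z.2.1 i ∉ N ∧ z.2.1 i < w1) →
      ∃ z' ∈ Z p, Sp.In K N z' ∧ z'.1 ∈ PB K b ∧ (∀ i, z'.2.1 i < w1) ∧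
        ∃ c' ∈ PB K b, K.le c' z.1 ∧ K.le c' z'.1 ∧ Lt c'.u z'.2.1 z.2.1 := by
  classical
  obtain ⟨F, hF, hFN⟩ := kl_RS K (X := X × Finset (Set O)) (Y := Pre × Y) ι
    (fun a x q => {z | (z.2.2.1, z.2.1, z.2.2.2) ∈ Z q.1 ∧ z.2.2.1 ∈ PB K b ∧ q.2 ⊆ z.2.2.1.C ∧
      (a, x, z.1.2) ∈ z.2.2.1.T ∧ z.1.1 = z.2.2.1.res a})
    (by
      intro a x q z hz
      obtain ⟨h1, h2, -, -, -⟩ := hz
      obtain ⟨A, hA⟩ := hZ _ _ h1
      refine ⟨Set.univ, ?_, Sp.mono (Set.subset_univ A) hA⟩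
      exact ⟨fun t _ => ⟨trivial, trivial, trivial⟩,
        fun M hM => ⟨(h2.1.chain.nice M hM).count, trivial⟩, fun v _ => trivial⟩)
  refine ⟨F, hF, ?_⟩
  intro N hN hCl p hp z hz hzb hM hβ
  have hc : K.Ok z.1 := hzb.1
  obtain ⟨w, hw, hw1, hw2, hmax⟩ := hc.exists_max hM
  have hgood : K.Good (K.V w.1) w.1 w.2.1 := hc.good w hw
  have hρc : (z.1.res w.1, w.2.2) ∈ RS (K.V w.1) := ⟨hc.res_mem hw, (hc.chain.tr w hw).2⟩
  have hgen : K.Gen (K.V w.1) w.1 w.2.1 N (z.1.res w.1, w.2.2) :=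
    kl_gen b hb hw1 hρc (hc.gen w hw _ hM hw1 hw2)
  obtain ⟨z'', hz'', hInz, hz1, hz2, ρ', hρ', hle1, hle2, hLt⟩ :=
    hFN N hN hCl w.1 (kl_NB_sub b N hw1) w.2.1 (kl_NB_sub b N hw2) hgood
      (p, z.1.C.filter (fun N' => K.cn N' ∈ NB b N ∧ w.1 ∈ N' ∧ w.2.1 ∈ N'))
      ⟨hp, fun N' hN' => ⟨(hc.chain.nice N' (Finset.mem_filter.1 hN').1).count,
        kl_NB_sub b N (Finset.mem_filter.1 hN').2.1⟩⟩
      ((z.1.res w.1, w.2.2), z.2.1, (z.1, z.2.2))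
      ⟨hz, hzb, Finset.filter_subset _ _, hw, rfl⟩ hρc hgen hβ
  obtain ⟨hd1, hd2, hd3, hd4, hd5⟩ := hz''
  have hle2' : K.leR w.2.1 ρ' (z''.2.2.1.res w.1, z''.1.2) := by
    rw [← hd5]
    exact hle2
  -- the glued condition
  have hok1 : K.Ok (z.1.glue w ρ') := ok_glue hc hw hρ' hle1
  have hgle : K.le (z.1.glue w ρ') z.1 := glue_le hc hw hρ' hle1
  have hρV := mem_V.1 hρ'.1
  have hAm : Am K (z.1.glue w ρ') (NB b N) (w.1, w.2.1, ρ'.2) z''.2.2.1 z''.1.2 := by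
    refine ⟨hok1, ?_, ?_, hw1, hw2, ?_, hd2.1, kl_pin b hb hd2 hInz.2.2.1, hd4, ?_, ?_⟩
    · exact mem_glue_C.2 (Or.inr ⟨hM, fun h => lt_irrefl w.1 (Set.mem_Iio.1 (h hw1))⟩)
    · exact mem_glue_T.2 (Or.inr (Or.inl rfl))
    · intro s hs hs1 hs2
      rcases mem_glue_T.1 hs with h | h | h
      · exact (hρV.1.T s h).1.le
      · rw [h]
      · exact hmax s h.1 hs1 hs2
    · intro N' hN' h1 h2 h3
      rcases mem_glue_C.1 hN' with h | h
      · exact absurd (Set.mem_Iio.1 ((hρV.1.C N' h).2 h2)) (lt_irrefl w.1)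
      · exact hd3 (Finset.mem_filter.2 ⟨h.1, h1, h2, h3⟩)
    · rw [glue_res z.1 w ρ' hρ'.1]
      exact hle2'
  obtain ⟨c', hex, hc'd, hbel⟩ := amalg hAm
  refine ⟨(z''.2.2.1, z''.2.1, z''.2.2.2), hd1, ⟨hInz.2.2.1, hInz.2.1, hInz.2.2.2⟩, hd2, hz2, c', ?_, ?_, hc'd, ?_⟩
  · refine ⟨hex.1, fun α hα => ?_⟩
    exact hbel α (below_glue (hzb.2 α hα) hw hρ') (hd2.2 α hα)
  · exact le_trans_of_ok hex.1 hok1 hc hex.2 hgle
  · refine kl_lt_mono ?_ hLt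
    have h1 := hex.2.u
    rwa [glue_u] at h1

end Code

end Pool.Agent.Lib.MP_8f49b0_lc.MM
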