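import Pool.Agent.Lib.MP_8f49b0_lc.MM.I.Kl
import Pool.Agent.Lib.MP_8f49b0_lc.MM.I.Add

/-! # Consequences of the K-lemma (module I-KLCOR), (3.7), (3.9) of the paper

`refl_PB`: `kl` with `ι = Empty`. `exists_node`: `exists_nice` for `F` and the union of `A` with the support of `c` (`exists_supp`) (and `{α}` for `b = some α`), `Nice.inter`, `PIn.inter`, `add_count`.
-/

namespace Pool.Agent.Lib.MP_8f49b0_lc.MM

namespace Code

variable (K : Code)

/-- for every `(c, y) ∈ E p` there is some `(c', y') ∈ E p` in `N` such that `c`, `c'` are compatible, provided that the trace of `N` belongs to `c` -/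
theorem refl_PB (b : Option O) (hb : ∀ α, b = some α → K.Tr α) {X Y : Type*} [Sp K X] [Sp K Y]
    (E : X → Set (Pre × Y)) (hE : ∀ p, ∀ e ∈ E p, ∃ A : Set O, Sp.In K A e.2) :
    ∃ F : List O → Set O, Fn F ∧ ∀ N, K.Nice N → Cl F N → ∀ p, Sp.In K N p →
      ∀ e ∈ E p, e.1 ∈ PB K b → NB b N ∈ e.1.C →
      ∃ e' ∈ E p, Sp.In K N e' ∧ e'.1 ∈ PB K b ∧ ∃ c' ∈ PB K b, K.le c' e.1 ∧ K.le c' e'.1 := by
  obtain ⟨F, hF, hFN⟩ := kl K b hb Empty (fun p => {z : Pre × (Empty → O) × Y | (z.1, z.2.2) ∈ E p})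
    (fun p z hz => hE p _ hz)
  refine ⟨F, hF, fun N hN hCl p hp e he heb hNe => ?_⟩
  obtain ⟨z', hz', h1, h2, -, c', hc', h3, h4, -⟩ := hFN N hN hCl p hp (e.1, fun i => i.elim, e.2) he heb hNe
    (fun i => i.elim)
  exact ⟨(z'.1, z'.2.2), hz', ⟨h1.1, h1.2.2⟩, h2, c', hc', h3, h4⟩

/-- adding closed countable nodes -/
theorem exists_node (b : Option O) (hb : ∀ α, b = some α → K.Tr α) (F : List O → Set O) (hF : Fn F)
    {c : Pre} (hc : c ∈ PB K b) (A : Set O) (hA : A.Countable) :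
    ∃ N, K.Nice N ∧ Cl F N ∧ A ⊆ N ∧ K.PIn N c ∧ ∃ c' ∈ PB K b, K.le c' c ∧ NB b N ∈ c'.C := by
  obtain ⟨B, hB, hBN⟩ := exists_supp K c (fun N hN => (hc.1.chain.nice N hN).count)
  obtain ⟨N, hN, hABN, hCl⟩ := K.exists_nice F hF (A ∪ B) (hA.union hB.countable)
  have hPN : K.PIn N c := (hBN N).2 (Set.subset_union_right.trans hABN)
  refine ⟨N, hN, hCl, Set.subset_union_left.trans hABN, hPN, ?_⟩
  cases b with
  | none =>
    obtain ⟨c', h1, h2, -⟩ := add_count hc.1 hN hPN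
    refine ⟨c', ⟨h1.1, fun α hα => by simp at hα⟩, h1.2, ?_⟩
    rwa [NB_none]
  | some α =>
    have hα := hb α rfl
    obtain ⟨c', h1, h2, h3⟩ := add_count hc.1 (hN.inter hα) (hPN.inter hα (hc.2 α rfl))
    refine ⟨c', ⟨h1.1, fun β hβ => ?_⟩, h1.2, ?_⟩
    · obtain rfl := Option.some.inj hβ
      exact h3 _ (hc.2 _ rfl) Set.inter_subset_right
    · rwa [NB_some]

end Code

end Pool.Agent.Lib.MP_8f49b0_lc.MM
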