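import Pool.Agent.Lib.MP_8f49b0_lc.MM.I.GenRefl

/-! # The K-lemma for the iteration at a good node (module I-KLRS), (3.8) of the paper, first part

Write `R = RS (V a)`. Let `Zmin` be the set of the `(ρ₁, b)` with `ρ₁ ∈ R`, all `b i < w1`, `ρ₁ ≤ z'.1` for some `z' ∈ Z a x p`, `z'.1 ∈ R`, `z'.2.1 = b`, such that there are no `z'' ∈ Z a x p` with `z''.1 ∈ R`,
`z''.2.1 i < w1`, and `ρ' ∈ R`, `ρ' ≤ ρ₁, z''.1` with `Lt ρ'.1.u z''.2.1 b`.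
(1) `Zmin` contains no `(z₁, b₁)`, `(z₂, b₂)` with a common extension `ρ'` with `Lt ρ'.1.u b₁ b₂`. (2) By `Good.inc` (contraposition) the set `D` of the `σ ∈ R` for which there is `γ < w1` such that all `(ρ₁, b) ∈ Zmin` with `γ < b i`
are incompatible with `σ` is dense (and open). Apply `gen_reflect` to `E a x p = {(σ, γ)}` (`Y = O`): `z.1` has an extension in `D`; careful: `gen_reflect` starts from an `e ∈ E` above a generic `ρ`, so first extend `z.1` to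
`ρ ∈ D` (`Gen.anti`) with some `γ`, and get `(σ, γ') ∈ E` in `N` and `ρ₁ ≤ ρ, σ`. `γ' ∈ N`, and `z.2.1 i ∉ N`, so `γ' < z.2.1 i` (`Nice0.seg`), hence `(ρ₁, z.2.1) ∉ Zmin`, which gives `z'' ∈ Z a x p` and
`ρ₃ ≤ ρ₁, z''.1` with `Lt ρ₃.1.u z''.2.1 z.2.1`. (3) For every `i` let `n i` be the digit and `s i` the finite set of the `(m, e)`, `m ≤ n i`, with `(z''.2.1 i, m, e) ∈ ρ₃.1.u`. Apply `gen_reflect` to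
`E a x (p, s) = {(ρ₄, z) | z ∈ Z a x p, z.1 ∈ R, ρ₄ ≤ z.1, z.2.1 i < w1, (z.2.1 i, m, e) ∈ ρ₄.1.u for (m, e) ∈ s i}` (`Y = (Pre × O) × (ι → O) × Y`) and `ρ₃`. -/

namespace Pool.Agent.Lib.MP_8f49b0_lc.MM

namespace Code

variable (K : Code)

private def KlRS_Zmin {X Y : Type*} {ι : Type} (Z : O → O → X → Set ((Pre × O) × (ι → O) × Y))
    (a x : O) (p : X) : Set ((Pre × O) × (ι → O)) :=
  {w | w.1 ∈ RS (K.V a) ∧ (∀ i, w.2 i < w1) ∧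
    (∃ z' ∈ Z a x p, z'.1 ∈ RS (K.V a) ∧ K.leR x w.1 z'.1 ∧ z'.2.1 = w.2) ∧
    ¬ ∃ z'' ∈ Z a x p, z''.1 ∈ RS (K.V a) ∧ (∀ i, z''.2.1 i < w1) ∧
      ∃ ρ' ∈ RS (K.V a), K.leR x ρ' w.1 ∧ K.leR x ρ' z''.1 ∧ Lt ρ'.1.u z''.2.1 w.2}

private def KlRS_E1 {X Y : Type*} {ι : Type} (Z : O → O → X → Set ((Pre × O) × (ι → O) × Y))
    (a x : O) (p : X) : Set ((Pre × O) × O) :=
  {e | e.1 ∈ RS (K.V a) ∧ e.2 < w1 ∧ ∀ w ∈ KlRS_Zmin K Z a x p, (∀ i, e.2 < w.2 i ∧ w.2 i < w1) →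
    ¬ ∃ a' ∈ RS (K.V a), K.leR x a' e.1 ∧ K.leR x a' w.1}

private def KlRS_E2 {X Y : Type*} {ι : Type} (Z : O → O → X → Set ((Pre × O) × (ι → O) × Y))
    (a x : O) (q : X × (ι → Finset (ℕ × Bool))) : Set ((Pre × O) × ((Pre × O) × (ι → O) × Y)) :=
  {e | e.2 ∈ Z a x q.1 ∧ e.2.1 ∈ RS (K.V a) ∧ K.leR x e.1 e.2.1 ∧ (∀ i, e.2.2.1 i < w1) ∧
    ∀ i, ∀ d ∈ q.2 i, (e.2.2.1 i, d.1, d.2) ∈ e.1.1.u}

private theorem KlRS_dense {X Y : Type*} {ι : Type} [Finite ι]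
    (Z : O → O → X → Set ((Pre × O) × (ι → O) × Y)) (a x : O) (p : X)
    (hg : K.Good (K.V a) a x) (ρ : Pre × O) (hρ : ρ ∈ RS (K.V a)) :
    ∃ ρ' ∈ RS (K.V a), K.leR x ρ' ρ ∧ ∃ γ, (ρ', γ) ∈ KlRS_E1 K Z a x p := by
  by_contra hcon
  push Not at hcon
  obtain ⟨z1, hz1, z2, hz2, b, hb, hb0, hb1, hb2, hlt⟩ := hg.inc ι (KlRS_Zmin K Z a x p)
    (fun z hz => hz.1) ρ hρ (fun a' ha' ha'ρ γ hγ => by
      have h1 := hcon a' ha' ha'ρ γ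
      by_contra h2
      apply h1
      refine ⟨ha', hγ, ?_⟩
      intro w hw hwi hex
      exact h2 ⟨w, hw, hwi, hex⟩)
  obtain ⟨h21, h22, h23, h24⟩ := hz2
  apply h24
  obtain ⟨h11, h12, ⟨z', hz', hz'1, hz'2, hz'3⟩, h14⟩ := hz1
  refine ⟨z', hz', hz'1, fun i => ?_, b, hb, hb2, leR_trans hg hb h11 hz'1 hb1 hz'2, ?_⟩
  · rw [hz'3]; exact h12 i
  · rw [hz'3]; exact hlt

theorem kl_RS {X Y : Type*} [Sp K X] [Sp K Y] (ι : Type) [Finite ι] (Z : O → O → X → Set ((Pre × O) × (ι → O) × Y))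
    (hZ : ∀ a x p, ∀ z ∈ Z a x p, ∃ A : Set O, Sp.In K A z.2.2) :
    ∃ F : List O → Set O, Fn F ∧ ∀ N, K.Nice N → Cl F N → ∀ a ∈ N, ∀ x ∈ N, K.Good (K.V a) a x →
      ∀ p, Sp.In K N p → ∀ z ∈ Z a x p, z.1 ∈ RS (K.V a) → K.Gen (K.V a) a x N z.1 →
      (∀ i, z.2.1 i ∉ N ∧ z.2.1 i < w1) →
      ∃ z' ∈ Z a x p, Sp.In K N z' ∧ z'.1 ∈ RS (K.V a) ∧ (∀ i, z'.2.1 i < w1) ∧
        ∃ ρ' ∈ RS (K.V a), K.leR x ρ' z.1 ∧ K.leR x ρ' z'.1 ∧ Lt ρ'.1.u z'.2.1 z.2.1 := by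
  classical
  obtain ⟨F1, hF1, h1⟩ := K.gen_reflect (KlRS_E1 K Z) (fun a x p e _ => ⟨{e.2}, by
    change e.2 ∈ ({e.2} : Set O)
    exact Set.mem_singleton _⟩)
  obtain ⟨F2, hF2, h2⟩ := K.gen_reflect (KlRS_E2 K Z) (fun a x q e he => by
    obtain ⟨he1, he2, _⟩ := he
    obtain ⟨A1, hA1⟩ := hZ a x q.1 e.2 he1
    have hok : K.Ok e.2.1.1 := (mem_V.1 he2.1).2
    obtain ⟨A2, _, hA2⟩ := exists_supp K e.2.1.1 (fun N hN => (hok.chain.nice N hN).count)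
    have hP : K.PIn A2 e.2.1.1 := (hA2 A2).2 (Set.Subset.refl _)
    refine ⟨A1 ∪ (A2 ∪ ({e.2.1.2} ∪ Set.range e.2.2.1)), ⟨⟨?_, ?_⟩, ?_, ?_⟩⟩
    · exact PIn.mono hP (fun ξ hξ => Or.inr (Or.inl hξ))
    · exact Or.inr (Or.inr (Or.inl (Set.mem_singleton _)))
    · intro i
      exact Or.inr (Or.inr (Or.inr ⟨i, rfl⟩))
    · exact Sp.mono (fun ξ hξ => Or.inl hξ) hA1)
  obtain ⟨F, hF, hFN⟩ := exists_merge2 F1 F2 hF1 hF2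
  refine ⟨F, hF, fun N hN hNF a ha x hx hg p hp z hz hz1 hgen hzi => ?_⟩
  obtain ⟨hN1, hN2⟩ := hFN N hNF
  -- step 1: extend into the dense set
  obtain ⟨ρ, hρ, hρz, γ, hγ⟩ := KlRS_dense K Z a x p hg z.1 hz1
  have hgρ : K.Gen (K.V a) a x N ρ := Gen.anti hg hz1 hρ hρz hgen
  obtain ⟨e', he', he'N, he'1, ρ1, hρ1, hρ1ρ, hρ1e⟩ :=
    h1 N hN hN1 a ha x hx hg p hp ρ hρ hgρ (ρ, γ) hγ hρ (leR_refl hg hρ)
  have he2N : e'.2 ∈ N := he'N.2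
  have hlt : ∀ i, e'.2 < z.2.1 i := by
    intro i
    by_contra hcon
    push Not at hcon
    rcases hcon.lt_or_eq with h | h
    · exact (hzi i).1 (hN.seg e'.2 he2N he'.2.1 h)
    · exact (hzi i).1 (h ▸ he2N)
  have hρ1z : K.leR x ρ1 z.1 := leR_trans hg hρ1 hρ hz1 hρ1ρ hρz
  have hnot : ((ρ1, z.2.1) : (Pre × O) × (ι → O)) ∉ KlRS_Zmin K Z a x p := by
    intro hin
    exact he'.2.2 _ hin (fun i => ⟨hlt i, (hzi i).2⟩) ⟨ρ1, hρ1, hρ1e, leR_refl hg hρ1⟩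
  have hex : ∃ z'' ∈ Z a x p, z''.1 ∈ RS (K.V a) ∧ (∀ i, z''.2.1 i < w1) ∧
      ∃ ρ' ∈ RS (K.V a), K.leR x ρ' ρ1 ∧ K.leR x ρ' z''.1 ∧ Lt ρ'.1.u z''.2.1 z.2.1 := by
    by_contra hcon
    exact hnot ⟨hρ1, fun i => (hzi i).2, ⟨z, hz, hz1, hρ1z, rfl⟩, hcon⟩
  obtain ⟨z'', hz'', hz''1, hz''b, ρ3, hρ3, hρ31, hρ3z, hLt⟩ := hex
  have hρ3z0 : K.leR x ρ3 z.1 := leR_trans hg hρ3 hρ1 hz1 hρ31 hρ1z
  have hgρ3 : K.Gen (K.V a) a x N ρ3 := Gen.anti hg hz1 hρ3 hρ3z0 hgen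
  -- step 2: the digits
  choose n hn1 hn2 hn3 using hLt
  let s : ι → Finset (ℕ × Bool) := fun i =>
    (ρ3.1.u.filter (fun v => v.1 = z''.2.1 i ∧ v.2.1 ≤ n i)).image (fun v => v.2)
  have hs : ∀ i, ∀ d : ℕ × Bool, d.1 ≤ n i → (z''.2.1 i, d.1, d.2) ∈ ρ3.1.u → d ∈ s i := by
    intro i d hd hd'
    refine Finset.mem_image.2 ⟨(z''.2.1 i, d.1, d.2), Finset.mem_filter.2 ⟨hd', rfl, hd⟩, rfl⟩
  have hs' : ∀ i, ∀ d ∈ s i, (z''.2.1 i, d.1, d.2) ∈ ρ3.1.u := by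
    intro i d hd
    obtain ⟨v, hv, rfl⟩ := Finset.mem_image.1 hd
    obtain ⟨hv1, hv2, _⟩ := Finset.mem_filter.1 hv
    rw [← hv2]
    exact hv1
  have hE2 : ((ρ3, z'') : (Pre × O) × ((Pre × O) × (ι → O) × Y)) ∈ KlRS_E2 K Z a x (p, s) :=
    ⟨hz'', hz''1, hρ3z, hz''b, hs'⟩
  obtain ⟨f, hf, hfN, hf1, ρ', hρ', hρ'3, hρ'f⟩ := h2 N hN hN2 a ha x hx hg (p, s)
    ⟨hp, fun i d _ => ⟨trivial, trivial⟩⟩ ρ3 hρ3 hgρ3 (ρ3, z'') hE2 hρ3 (leR_refl hg hρ3)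
  obtain ⟨hfa, hfb, hfc, hfd, hfe⟩ := hf
  refine ⟨f.2, hfa, hfN.2, hfb, hfd, ρ', hρ', leR_trans hg hρ' hρ3 hz1 hρ'3 hρ3z0,
    leR_trans hg hρ' hf1 hfb hρ'f hfc, ?_⟩
  intro i
  refine ⟨n i, ?_, ?_, ?_⟩
  · intro m hm
    obtain ⟨e, he1, he2⟩ := hn1 i m hm
    refine ⟨e, hρ'f.le.u (hfe i (m, e) (hs i (m, e) hm.le he1)), hρ'3.le.u he2⟩
  · exact hρ'f.le.u (hfe i (n i, false) (hs i (n i, false) le_rfl (hn2 i)))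
  · exact hρ'3.le.u (hn3 i)

end Code

end Pool.Agent.Lib.MP_8f49b0_lc.MM
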