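import Pool.Agent.Lib.MP_8f49b0_lc.MM.I.Cap

/-! # Conditions with a last transitive node (module I-TOP)

`g.top w C` is the condition `g` below the node `w` together with `w` and those countable nodes in `C` which are not below `w`. All constructions
in sections 3.5 and 3.6 of the paper are of this form. -/

namespace Pool.Agent.Lib.MP_8f49b0_lc.MM

open Classical in
/-- `g` together with the node `w` and the countable nodes in `C` which are not below `w` -/
noncomputable def Pre.top (g : Pre) (w : O × O × O) (C : Finset (Set O)) : Pre where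
  T := insert w g.T
  C := g.C ∪ C.filter (fun N => ¬ N ⊆ Set.Iio w.1)
  u := g.u

namespace Code

variable {K : Code}

theorem mem_top_T {g : Pre} {w s : O × O × O} {C : Finset (Set O)} : s ∈ (g.top w C).T ↔ s = w ∨ s ∈ g.T := by
  unfold Pre.top
  simp

theorem mem_top_C {g : Pre} {w : O × O × O} {C : Finset (Set O)} {N : Set O} :
    N ∈ (g.top w C).C ↔ N ∈ g.C ∨ (N ∈ C ∧ ¬ N ⊆ Set.Iio w.1) := by
  unfold Pre.top
  simp

theorem top_u (g : Pre) (w : O × O × O) (C : Finset (Set O)) : (g.top w C).u = g.u := rfl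

theorem top_res {g : Pre} {w : O × O × O} (C : Finset (Set O)) (hg : g ∈ K.V w.1) : (g.top w C).res w.1 = g := by
  have hb := (mem_V.1 hg).1
  ext t
  · rw [mem_res_T, mem_top_T]
    constructor
    · rintro ⟨rfl | h, h2⟩
      · exact absurd h2 (lt_irrefl _)
      · exact h
    · intro h
      exact ⟨Or.inr h, (hb.T t h).1⟩
  · rw [mem_res_C, mem_top_C]
    constructor
    · rintro ⟨h | h, h2⟩
      · exact h
      · exact absurd h2 h.2
    · intro h
      exact ⟨Or.inl h, (hb.C t h).2⟩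
  · rfl

theorem below_top {g : Pre} {w : O × O × O} {C : Finset (Set O)} {γ : O} (hg : g ∈ K.V w.1) (h1 : w.1 < γ)
    (h2 : w.2.1 < γ) (h3 : w.2.2 < w1) (hC : ∀ N ∈ C, ¬ N ⊆ Set.Iio w.1 → N.Countable ∧ N ⊆ Set.Iio γ) :
    Below γ (g.top w C) := by
  have hb := (mem_V.1 hg).1
  refine ⟨?_, ?_, ?_⟩
  · intro t ht
    rcases mem_top_T.1 ht with rfl | h
    · exact ⟨h1, h2, h3⟩
    · exact ⟨(hb.T t h).1.trans h1, (hb.T t h).2.1.trans h1, (hb.T t h).2.2⟩
  · intro N hN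
    rcases mem_top_C.1 hN with h | h
    · exact ⟨(hb.C N h).1, (hb.C N h).2.trans (Set.Iio_subset_Iio h1.le)⟩
    · exact hC N h.1 h.2
  · intro v hv
    exact hb.u v hv

/-- the hypotheses on a countable node above `w` -/
structure TopN (K : Code) (g : Pre) (w : O × O × O) (N : Set O) : Prop where
  nice : K.Nice N
  fst : w.1 ∈ N
  snd : w.2.1 ∈ N
  cap : 0 < w.1 → N ∩ Set.Iio w.1 ∈ g.C
  gen : K.Gen (K.V w.1) w.1 w.2.1 N (g, w.2.2)

/-- a condition whose last transitive node is `w` -/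
theorem Ok.eq_top {c : Pre} (hc : K.Ok c) {w : O × O × O} (hw : w ∈ c.T) (hlast : ∀ t ∈ c.T, t.1 ≤ w.1) :
    c = (c.res w.1).top w c.C := by
  ext t
  · rw [mem_top_T, mem_res_T]
    constructor
    · intro ht
      rcases (hlast t ht).eq_or_lt with h | h
      · exact Or.inl (hc.chain.eq t ht w hw h)
      · exact Or.inr ⟨ht, h⟩
    · rintro (rfl | h)
      · exact hw
      · exact h.1
  · rw [mem_top_C, mem_res_C]
    constructor
    · intro ht
      by_cases h : t ⊆ Set.Iio w.1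
      · exact Or.inl ⟨ht, h⟩
      · exact Or.inr ⟨ht, h⟩
    · rintro (h | h)
      · exact h.1
      · exact h.1
  · rfl

/-- the countable nodes above a transitive node `w` of `c` which contain `w` -/
theorem Ok.topN {c : Pre} (hc : K.Ok c) {w : O × O × O} (hw : w ∈ c.T) {N : Set O} (hN : N ∈ c.C)
    (h1 : w.1 ∈ N) (h2 : w.2.1 ∈ N) : TopN K (c.res w.1) w N := by
  refine ⟨hc.chain.nice N hN, h1, h2, fun h0 => ?_, hc.gen w hw N hN h1 h2⟩
  rw [mem_res_C]
  exact ⟨hc.chain.cap N hN w hw h0 h1 h2, Set.inter_subset_right⟩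

/-- a countable node which is above `w` but below all larger transitive nodes contains `w` -/
theorem Ok.mem_of_block {c : Pre} (hc : K.Ok c) {w : O × O × O} (hw : w ∈ c.T) {N : Set O} (hN : N ∈ c.C)
    (h1 : ¬ N ⊆ Set.Iio w.1) (h2 : ∀ t ∈ c.T, w.1 < t.1 → N ⊆ Set.Iio t.1) : w.1 ∈ N ∧ w.2.1 ∈ N := by
  refine hc.chain.base N hN w hw h1 fun t ht h => ?_
  by_contra hcon
  exact h (h2 t ht (not_le.1 hcon))

/-- two countable nodes directly above `w` -/
theorem Ok.comp_of_block {c : Pre} (hc : K.Ok c) {w : O × O × O} (hw : w ∈ c.T) {N N' : Set O} (hN : N ∈ c.C)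
    (hN' : N' ∈ c.C) (h1 : ¬ N ⊆ Set.Iio w.1) (h2 : ∀ t ∈ c.T, w.1 < t.1 → N ⊆ Set.Iio t.1)
    (h1' : ¬ N' ⊆ Set.Iio w.1) (h2' : ∀ t ∈ c.T, w.1 < t.1 → N' ⊆ Set.Iio t.1) :
    N = N' ∨ K.cn N ∈ N' ∨ K.cn N' ∈ N := by
  refine hc.chain.comp N hN N' hN' fun t ht => ?_
  rcases lt_or_ge w.1 t.1 with h | h
  · exact ⟨fun _ => h2' t ht h, fun _ => h2 t ht h⟩
  · exact ⟨fun h3 => absurd (h3.trans (Set.Iio_subset_Iio h)) h1,
      fun h3 => absurd (h3.trans (Set.Iio_subset_Iio h)) h1'⟩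

/-- `TopN` is inherited by stronger `(g', h')` -/
theorem TopN.anti {g g' : Pre} {w : O × O × O} {N : Set O} {h' : O} (h : TopN K g w N) (hgood : K.Good (K.V w.1) w.1 w.2.1)
    (hg : (g, w.2.2) ∈ RS (K.V w.1)) (hg' : (g', h') ∈ RS (K.V w.1)) (hle : K.leR w.2.1 (g', h') (g, w.2.2)) :
    TopN K g' (w.1, w.2.1, h') N := by
  exact ⟨h.nice, h.fst, h.snd, fun h0 => hle.le.C (h.cap h0), h.gen.anti hgood hg hg' hle⟩

/-- how to compare a condition with `g.top w C` -/
theorem top_le {c g : Pre} {w : O × O × O} {C : Finset (Set O)} (hg : g ∈ K.V w.1) (hle : K.le g (c.res w.1))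
    (hT : ∀ t ∈ c.T, t.1 < w.1 ∨ (t.1 = w.1 ∧ t.2.1 = w.2.1 ∧ K.L w.2.1 g w.2.2 t.2.2))
    (hC : ∀ N ∈ c.C, ¬ N ⊆ Set.Iio w.1 → N ∈ C) : K.le (g.top w C) c := by
  have hres := top_res C hg
  refine ⟨hle.u, ?_, ?_⟩
  · intro N hN
    rw [mem_top_C]
    by_cases h : N ⊆ Set.Iio w.1
    · exact Or.inl (hle.C (mem_res_C.2 ⟨hN, h⟩))
    · exact Or.inr ⟨hC N hN h, h⟩
  · intro t ht
    rcases hT t ht with h | ⟨h1, h2, h3⟩
    · obtain ⟨h', hm, hL⟩ := hle.T t (mem_res_T.2 ⟨ht, h⟩)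
      refine ⟨h', mem_top_T.2 (Or.inr hm), ?_⟩
      have : (g.top w C).res t.1 = g.res t.1 := by
        rw [← hres, res_res _ h.le, hres]
      rw [this]
      exact hL
    · refine ⟨w.2.2, mem_top_T.2 (Or.inl ?_), ?_⟩
      · rw [h1, h2]
      · rw [h1, hres, h2]
        exact h3

end Code

end Pool.Agent.Lib.MP_8f49b0_lc.MM
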